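import Pool.Agent.Helper72.GP.GoalsB

set_option autoImplicit false

namespace Pool.Agent.Helper72.GP

open Finset Polynomial
open scoped Polynomial.Bivariate Classical

noncomputable section

/-- all three points of a triple are selected -/
def Sel3 {R M : ℕ} (L E : ℕ) (ω : O1 R × O2 M) (τ : Pt × Pt × Pt) : Prop :=
  Sel L E ω τ.1 ∧ Sel L E ω τ.2.1 ∧ Sel L E ω τ.2.2

theorem mem_trip {P : Finset Pt} {τ : Pt × Pt × Pt} : τ ∈ trip P ↔
    τ.1 ∈ P ∧ τ.2.1 ∈ P ∧ τ.2.2 ∈ P ∧ τ.1 ≠ τ.2.2 ∧ ∃ a b, Tri a b τ.1 τ.2.1 τ.2.2 := by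
  unfold trip
  rw [mem_filter, mem_product, mem_product]
  tauto

theorem box_pair {P : Finset Pt} {N : ℕ} (h : Box N P) {x z : Pt} (hx : x ∈ P) (hz : z ∈ P) :
    Box N {x, z} := by
  intro p hp
  rw [mem_insert, mem_singleton] at hp
  rcases hp with rfl | rfl
  · exact h _ hx
  · exact h _ hz

theorem gd_pos {x z : Pt} (h : x ≠ z) : 0 < gd x z := by
  unfold gd
  rw [Int.gcd_pos_iff]
  by_contra hcon
  push Not at hcon
  apply h
  ext
  · linarith [hcon.1]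
  · linarith [hcon.2]

section triple

variable {N H R M L e H2 : ℕ}

theorem bet_nonneg : 0 ≤ bet R M L e := by unfold bet; positivity

theorem card_le_add {α : Type} [Finite α] (p q r : α → Prop) (h : ∀ x, p x → q x ∨ r x) :
    Nat.card {x // p x} ≤ Nat.card {x // q x} + Nat.card {x // r x} := by
  classical
  have := Fintype.ofFinite α
  rw [Nat.card_eq_fintype_card, Nat.card_eq_fintype_card, Nat.card_eq_fintype_card,
    Fintype.card_subtype, Fintype.card_subtype, Fintype.card_subtype]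
  refine (Finset.card_le_card ?_).trans (Finset.card_union_le _ _)
  intro x hx
  rw [mem_union, mem_filter, mem_filter]
  rw [mem_filter] at hx
  rcases h x hx.2 with h | h
  · left; exact ⟨mem_univ _, h⟩
  · right; exact ⟨mem_univ _, h⟩

theorem card_le_of_imp {α : Type} [Finite α] (p q : α → Prop) (h : ∀ x, p x → q x) :
    Nat.card {x // p x} ≤ Nat.card {x // q x} :=
  Nat.card_le_card_of_injective (fun x : {x // p x} => (⟨x.1, h _ x.2⟩ : {x // q x}))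
    (fun a b hab => Subtype.ext (by simpa using congrArg Subtype.val hab))

/-- bound for one low triple -/
theorem low_triple (hK : KZL) (h3 : CIII) (hPar : Par N H R M L e H2) {a b : ℕ} {x y z : Pt}
    (hT : Tri a b x y z) (hxz : x ≠ z) (hB : Box N {x, z}) (hm : a + b ≤ H)
    [NeZero R] [NeZero M] :
    (Nat.card {ω : O1 R × O2 M // Sel3 L (e ^ 2) ω (x, y, z)} : ℝ) ≤
      (R : ℝ) ^ 24 * M ^ 9 * (bet R M L e * ((2 * e : ℝ) / R) ^ 8) := by
  refine le_trans ?_ (h3 N H R M L e H2 a b x y z hPar hT hxz hB (hm.trans hPar.hHH))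
  refine Nat.cast_le.2 (card_le_of_imp _ _ ?_)
  intro ω hω
  exact ⟨hω.1, hω.2.1, hω.2.2, hK N H R M L e H2 a b x y z ω hPar hT hm hω.1 hω.2.1 hω.2.2⟩

/-- bound for one triple of height `> H` -/
theorem high_triple (h1 : CI) (h2 : CII) (h3 : CIII) (h4 : CIV) (hPar : Par N H R M L e H2)
    {a b : ℕ} {x y z : Pt} (hT : Tri a b x y z) (hxz : x ≠ z) (hB : Box N {x, z})
    (hm : H < a + b) (hbet : (2 / (H2 : ℝ)) ^ 8 ≤ bet R M L e) [NeZero R] [NeZero M] :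
    (Nat.card {ω : O1 R × O2 M // Sel3 L (e ^ 2) ω (x, y, z)} : ℝ) ≤
      (R : ℝ) ^ 24 * M ^ 9 * ((12 ^ 8 + 1) * bet R M L e ^ 3 +
        (2 * (6 * N) ^ 8 / R ^ 7 + bet R M L e / R ^ 8) + bet R M L e * ((2 * e : ℝ) / R) ^ 8) := by
  have hb := bet_nonneg (R := R) (M := M) (L := L) (e := e)
  have e1 := h1 N H R M L e H2 a b x y z hPar hT hxz hB hm
  have e2 := h2 N H R M L e H2 a b x y z hPar hT hxz hB
  have e3 : (Nat.card {ω : O1 R × O2 M // Sel L (e ^ 2) ω x ∧ Sel L (e ^ 2) ω y ∧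
      Sel L (e ^ 2) ω z ∧ Kz a b (UU ω.1 x) (UU ω.1 y) (UU ω.1 z)} : ℝ) ≤
      (R : ℝ) ^ 24 * M ^ 9 * (bet R M L e ^ 3 + bet R M L e / R ^ 8 +
        bet R M L e * ((2 * e : ℝ) / R) ^ 8) := by
    rcases le_or_gt (a + b) H2 with h | h
    · refine (h3 N H R M L e H2 a b x y z hPar hT hxz hB h).trans ?_
      refine mul_le_mul_of_nonneg_left ?_ (by positivity)
      have : 0 ≤ bet R M L e ^ 3 + bet R M L e / (R : ℝ) ^ 8 := by positivity
      linarith
    · refine (h4 N H R M L e H2 a b x y z hPar hT hxz hB h).trans ?_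
      refine mul_le_mul_of_nonneg_left ?_ (by positivity)
      have h5 : bet R M L e ^ 2 * (2 / (H2 : ℝ)) ^ 8 ≤ bet R M L e ^ 3 := by
        calc bet R M L e ^ 2 * (2 / (H2 : ℝ)) ^ 8 ≤ bet R M L e ^ 2 * bet R M L e := by gcongr
          _ = _ := by ring
      have : 0 ≤ bet R M L e * ((2 * e : ℝ) / R) ^ 8 := by positivity
      linarith
  have key : Nat.card {ω : O1 R × O2 M // Sel3 L (e ^ 2) ω (x, y, z)} ≤
      Nat.card {ω : O1 R × O2 M // Sel L (e ^ 2) ω x ∧ Sel L (e ^ 2) ω y ∧ Sel L (e ^ 2) ω z ∧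
        ¬ Dep (UU ω.1 x) (UU ω.1 y) (UU ω.1 z)} +
      (Nat.card {ω : O1 R × O2 M // Sel L (e ^ 2) ω x ∧ Sel L (e ^ 2) ω y ∧ Sel L (e ^ 2) ω z ∧
        Dep (UU ω.1 x) (UU ω.1 y) (UU ω.1 z) ∧ ¬ Kz a b (UU ω.1 x) (UU ω.1 y) (UU ω.1 z)} +
      Nat.card {ω : O1 R × O2 M // Sel L (e ^ 2) ω x ∧ Sel L (e ^ 2) ω y ∧ Sel L (e ^ 2) ω z ∧
        Kz a b (UU ω.1 x) (UU ω.1 y) (UU ω.1 z)}) := by
    refine (card_le_add _ (fun ω : O1 R × O2 M => Sel L (e ^ 2) ω x ∧ Sel L (e ^ 2) ω y ∧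
      Sel L (e ^ 2) ω z ∧ ¬ Dep (UU ω.1 x) (UU ω.1 y) (UU ω.1 z))
      (fun ω : O1 R × O2 M => Sel L (e ^ 2) ω x ∧ Sel L (e ^ 2) ω y ∧
      Sel L (e ^ 2) ω z ∧ Dep (UU ω.1 x) (UU ω.1 y) (UU ω.1 z)) ?_).trans ?_
    · intro ω hω
      by_cases hD : Dep (UU ω.1 x) (UU ω.1 y) (UU ω.1 z)
      · right; exact ⟨hω.1, hω.2.1, hω.2.2, hD⟩
      · left; exact ⟨hω.1, hω.2.1, hω.2.2, hD⟩
    · refine Nat.add_le_add_left ?_ _
      refine card_le_add _ _ _ ?_
      intro ω hω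
      by_cases hD : Kz a b (UU ω.1 x) (UU ω.1 y) (UU ω.1 z)
      · right; exact ⟨hω.1, hω.2.1, hω.2.2.1, hD⟩
      · left; exact ⟨hω.1, hω.2.1, hω.2.2.1, hω.2.2.2, hD⟩
  have key' : (Nat.card {ω : O1 R × O2 M // Sel3 L (e ^ 2) ω (x, y, z)} : ℝ) ≤ _ :=
    Nat.cast_le.2 key
  push_cast at key'
  refine key'.trans ?_
  refine (add_le_add e1 (add_le_add e2 e3)).trans (le_of_eq ?_)
  ring

theorem card_omega [NeZero R] [NeZero M] :
    (Fintype.card (O1 R × O2 M) : ℝ) = (R : ℝ) ^ 24 * M ^ 9 := by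
  have : Fintype.card (O1 R × O2 M) = R ^ 24 * M ^ 9 := by
    simp only [O1, O2, Fintype.card_prod, Fintype.card_fun, ZMod.card, Fintype.card_fin]
    ring
  rw [this]
  push_cast
  ring

theorem sum_card_sel [NeZero R] [NeZero M] (hONE : ONE) (hPar : Par N H R M L e H2)
    (P : Finset Pt) :
    ∑ ω : O1 R × O2 M, ((P.filter (fun x => Sel L (e ^ 2) ω x)).card : ℝ) =
      (R : ℝ) ^ 24 * M ^ 9 * (bet R M L e * P.card) := by
  have hR0 : 0 < R := Nat.pos_of_ne_zero (NeZero.ne R)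
  have hM0 : 0 < M := Nat.pos_of_ne_zero (NeZero.ne M)
  have hLR : L ≤ R := (Nat.le_mul_of_pos_left L hPar.hH).trans hPar.hLR
  have hEM : e ^ 2 ≤ M := by
    have h1 := hPar.he
    have h2 := hPar.hM1
    have h3 : 1 * L ^ 2 ≤ H2 * L ^ 2 := Nat.mul_le_mul_right _ (hPar.hH.trans hPar.hHH)
    omega
  have h1 : ∑ ω : O1 R × O2 M, ((P.filter (fun x => Sel L (e ^ 2) ω x)).card : ℝ) =
      ∑ x ∈ P, (Nat.card {ω : O1 R × O2 M // Sel L (e ^ 2) ω x} : ℝ) := by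
    simp_rw [Finset.card_filter, Nat.card_eq_fintype_card, Fintype.card_subtype,
      Finset.card_filter]
    push_cast
    rw [Finset.sum_comm]
  rw [h1]
  have h2 : ∀ x ∈ P, (Nat.card {ω : O1 R × O2 M // Sel L (e ^ 2) ω x} : ℝ) =
      (R : ℝ) ^ 24 * M ^ 9 * bet R M L e := by
    intro x _
    rw [hONE R M L (e ^ 2) hR0 hM0 hLR hEM x]
    unfold bet
    have hR' : (R : ℝ) ≠ 0 := by exact_mod_cast hR0.ne'
    have hM' : (M : ℝ) ≠ 0 := by exact_mod_cast hM0.ne'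
    push_cast
    field_simp
  rw [Finset.sum_congr rfl h2, Finset.sum_const, nsmul_eq_mul]
  ring

theorem sum_card_trip [NeZero R] [NeZero M] (hTRI : TRI) (hK : KZL) (h1 : CI) (h2 : CII)
    (h3 : CIII) (h4 : CIV) (hPar : Par N H R M L e H2) (P : Finset Pt) {t T : ℕ}
    (hB : Box N P) (hThin : Thin t P)
    (hT : ((P ×ˢ P).filter (fun p => p.1 ≠ p.2 ∧ H < gd p.1 p.2)).card ≤ T)
    (he8 : 8 * (t : ℝ) * P.card * ((2 * e : ℝ) / R) ^ 8 ≤ 1)
    (hbet : (2 / (H2 : ℝ)) ^ 8 ≤ bet R M L e)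
    (herr : (P.card : ℝ) * t * (2 * (6 * N) ^ 8 / R ^ 7 + bet R M L e / R ^ 8) ≤
      bet R M L e / 8) :
    ∑ ω : O1 R × O2 M, (((trip P).filter (fun τ => Sel3 L (e ^ 2) ω τ)).card : ℝ) ≤
      (R : ℝ) ^ 24 * M ^ 9 * (bet R M L e * P.card / 4 +
        (12 ^ 8 + 1) * bet R M L e ^ 3 * (t * T)) := by
  have hb := bet_nonneg (R := R) (M := M) (L := L) (e := e)
  have hsw : ∑ ω : O1 R × O2 M, (((trip P).filter (fun τ => Sel3 L (e ^ 2) ω τ)).card : ℝ) =
      ∑ τ ∈ trip P, (Nat.card {ω : O1 R × O2 M // Sel3 L (e ^ 2) ω τ} : ℝ) := by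
    simp_rw [Finset.card_filter, Nat.card_eq_fintype_card, Fintype.card_subtype,
      Finset.card_filter]
    push_cast
    rw [Finset.sum_comm]
  rw [hsw]
  set er : ℝ := 2 * (6 * N) ^ 8 / R ^ 7 + bet R M L e / R ^ 8 with her
  set lo : ℝ := bet R M L e * ((2 * e : ℝ) / R) ^ 8 with hlo
  set Om : ℝ := (R : ℝ) ^ 24 * M ^ 9 with hOm
  have her0 : 0 ≤ er := by positivity
  have hlo0 : 0 ≤ lo := by positivity
  have hOm0 : 0 ≤ Om := by positivity
  have hbound : ∀ τ ∈ trip P, (Nat.card {ω : O1 R × O2 M // Sel3 L (e ^ 2) ω τ} : ℝ) ≤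
      Om * (er + lo) + (if H < gd τ.1 τ.2.2 then Om * ((12 ^ 8 + 1) * bet R M L e ^ 3) else 0) := by
    rintro ⟨x, y, z⟩ hτ
    obtain ⟨hx, hy, hz, hxz, a, b, hTr⟩ := mem_trip.1 hτ
    simp only at hx hy hz hxz hTr ⊢
    have hBx := box_pair hB hx hz
    rcases le_or_gt (a + b) H with hm | hm
    · have h5 := low_triple hK h3 hPar hTr hxz hBx hm
      refine h5.trans ?_
      have h6 : (0 : ℝ) ≤ if H < gd x z then Om * ((12 ^ 8 + 1) * bet R M L e ^ 3) else 0 := by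
        split_ifs
        · positivity
        · exact le_rfl
      have h7 : 0 ≤ Om * er := by positivity
      rw [← hlo]
      nlinarith
    · have h5 := high_triple h1 h2 h3 h4 hPar hTr hxz hBx hm hbet
      have h6 : H < gd x z := by
        have := (hTRI.2.1 a b x y z hTr).1
        exact hm.trans_le (Nat.le_of_dvd (gd_pos hxz) this)
      rw [if_pos h6]
      refine h5.trans (le_of_eq ?_)
      rw [← her, ← hlo]
      ring
  refine (Finset.sum_le_sum hbound).trans ?_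
  rw [Finset.sum_add_distrib, Finset.sum_const, nsmul_eq_mul, ← Finset.sum_filter,
    Finset.sum_const, nsmul_eq_mul]
  obtain ⟨h5, h6⟩ := hTRI.2.2 P t H hThin
  have h5' : ((trip P).card : ℝ) ≤ (P.card : ℝ) ^ 2 * t := by exact_mod_cast h5
  have h6' : (((trip P).filter (fun τ => H < gd τ.1 τ.2.2)).card : ℝ) ≤ t * T := by
    exact_mod_cast h6.trans (Nat.mul_le_mul_left _ hT)
  have h7 : (P.card : ℝ) ^ 2 * t * (er + lo) ≤ bet R M L e * P.card / 4 := by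
    have h8 : (P.card : ℝ) * t * lo ≤ bet R M L e / 8 := by
      rw [hlo]
      have := mul_le_mul_of_nonneg_left he8 (show 0 ≤ bet R M L e / 8 by positivity)
      nlinarith
    have h9 : (P.card : ℝ) * t * (er + lo) ≤ bet R M L e / 4 := by nlinarith
    have := mul_le_mul_of_nonneg_left h9 (show (0 : ℝ) ≤ P.card by positivity)
    nlinarith
  calc ((trip P).card : ℝ) * (Om * (er + lo)) +
        ((trip P).filter (fun τ => H < gd τ.1 τ.2.2)).card *
          (Om * ((12 ^ 8 + 1) * bet R M L e ^ 3))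
      ≤ ((P.card : ℝ) ^ 2 * t) * (Om * (er + lo)) +
        (t * T) * (Om * ((12 ^ 8 + 1) * bet R M L e ^ 3)) := by gcongr
    _ = Om * ((P.card : ℝ) ^ 2 * t * (er + lo)) +
        Om * ((12 ^ 8 + 1) * bet R M L e ^ 3 * (t * T)) := by ring
    _ ≤ Om * (bet R M L e * P.card / 4) +
        Om * ((12 ^ 8 + 1) * bet R M L e ^ 3 * (t * T)) := by gcongr
    _ = _ := by ring

end triple

/-- AVG from the other packets -/
theorem avg_of (hSAMP : SAMP) (hTRI : TRI) (hONE : ONE) (hK : KZL) (h1 : CI) (h2 : CII)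
    (h3 : CIII) (h4 : CIV) : AVG := by
  intro P N H R M L e H2 t T q hPar hB hThin ht hq hP hT he8 hbet herr hqT
  have : NeZero R := ⟨hPar.hR.ne_zero⟩
  have : NeZero M := ⟨hPar.hM.ne_zero⟩
  have hb := bet_nonneg (R := R) (M := M) (L := L) (e := e)
  set be := bet R M L e with hbe
  set Om : ℝ := (R : ℝ) ^ 24 * M ^ 9 with hOm
  have hOm0 : 0 < Om := by
    have hR' : (0 : ℝ) < R := by exact_mod_cast hPar.hR.pos
    have hM' : (0 : ℝ) < M := by exact_mod_cast hPar.hM.pos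
    positivity
  have hs1 := sum_card_sel hONE hPar P
  have hs2 := sum_card_trip hTRI hK h1 h2 h3 h4 hPar P hB hThin hT he8 hbet herr
  rw [← hOm, ← hbe] at hs1 hs2
  have hq0 : (0 : ℝ) < q := by exact_mod_cast hq
  have hq1 : (1 : ℝ) ≤ q := by exact_mod_cast hq
  -- a good `ω`
  obtain ⟨ω, hω⟩ : ∃ ω : O1 R × O2 M, be * P.card / (2 * q) ≤
      ((P.filter (fun x => Sel L (e ^ 2) ω x)).card : ℝ) / q -
        (((trip P).filter (fun τ => Sel3 L (e ^ 2) ω τ)).card : ℝ) / q ^ 3 := by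
    by_contra hcon
    push Not at hcon
    have hlt : ∑ ω : O1 R × O2 M, (((P.filter (fun x => Sel L (e ^ 2) ω x)).card : ℝ) / q -
        (((trip P).filter (fun τ => Sel3 L (e ^ 2) ω τ)).card : ℝ) / q ^ 3) <
        ∑ ω : O1 R × O2 M, be * P.card / (2 * q) :=
      Finset.sum_lt_sum_of_nonempty ⟨0, mem_univ _⟩ (fun ω _ => hcon ω)
    rw [Finset.sum_sub_distrib, ← Finset.sum_div, ← Finset.sum_div, hs1, Finset.sum_const,
      nsmul_eq_mul, Finset.card_univ, card_omega, ← hOm] at hlt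
    have h5 : (∑ ω : O1 R × O2 M, (((trip P).filter (fun τ => Sel3 L (e ^ 2) ω τ)).card : ℝ)) /
        q ^ 3 ≤ Om * (be * P.card / (2 * q)) := by
      rw [div_le_iff₀ (by positivity)]
      refine hs2.trans ?_
      have h6 : (12 ^ 8 + 1) * be ^ 3 * (t * T) ≤ be * P.card * q ^ 2 / 4 := by
        have := mul_le_mul_of_nonneg_left hqT hb
        nlinarith
      have h7 : be * P.card / 4 ≤ be * P.card * q ^ 2 / 4 := by
        have h8 : (1 : ℝ) ≤ (q : ℝ) ^ 2 := one_le_pow₀ hq1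
        have h9 : 0 ≤ be * P.card := by positivity
        nlinarith
      have h10 : Om * (be * P.card / (2 * q)) * q ^ 3 =
          Om * (be * P.card * q ^ 2 / 2) := by
        field_simp
      rw [h10]
      refine mul_le_mul_of_nonneg_left ?_ hOm0.le
      linarith
    have h6 : Om * (be * P.card) / q = Om * (be * P.card / (2 * q)) +
        Om * (be * P.card / (2 * q)) := by
      field_simp
      ring
    rw [h6] at hlt
    linarith
  obtain ⟨S, hSV, hST, hcard⟩ := hSAMP Pt (P.filter (fun x => Sel L (e ^ 2) ω x))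
    ((trip P).filter (fun τ => Sel3 L (e ^ 2) ω τ)) q hq (by
      rintro ⟨x, y, z⟩ hτ
      rw [mem_filter] at hτ
      obtain ⟨hτ, hs⟩ := hτ
      obtain ⟨hx, hy, hz, hxz, a, b, hTr⟩ := mem_trip.1 hτ
      simp only at hx hy hz hxz hTr ⊢
      obtain ⟨-, -, -, h7⟩ := hTRI.2.1 a b x y z hTr
      simp only [mem_filter]
      exact ⟨⟨hx, hs.1⟩, ⟨hy, hs.2.1⟩, ⟨hz, hs.2.2⟩, (h7 hxz).1, (h7 hxz).2, hxz⟩)
  refine ⟨S, fun x hx => (mem_filter.1 (hSV hx)).1, ?_, hω.trans hcard⟩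
  intro x hx y hy z hz hxy hyz hxz hcol
  have hx' := mem_filter.1 (hSV hx)
  have hy' := mem_filter.1 (hSV hy)
  have hz' := mem_filter.1 (hSV hz)
  obtain ⟨a, b, h | h | h⟩ := hTRI.1 x y z hxy hyz hxz hcol
  · refine hST (x, y, z) ?_ ⟨hx, hy, hz⟩
    rw [mem_filter, mem_trip]
    exact ⟨⟨hx'.1, hy'.1, hz'.1, hxz, a, b, h⟩, hx'.2, hy'.2, hz'.2⟩
  · refine hST (y, z, x) ?_ ⟨hy, hz, hx⟩
    rw [mem_filter, mem_trip]
    exact ⟨⟨hy'.1, hz'.1, hx'.1, hxy.symm, a, b, h⟩, hy'.2, hz'.2, hx'.2⟩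
  · refine hST (z, x, y) ?_ ⟨hz, hx, hy⟩
    rw [mem_filter, mem_trip]
    exact ⟨⟨hz'.1, hx'.1, hy'.1, hyz.symm, a, b, h⟩, hz'.2, hx'.2, hy'.2⟩

end

end Pool.Agent.Helper72.GP
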