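import Mathlib
import Pool.Agent.Helper85.BL.RES

/-!
# Project GP (MP_c9dfb5_co): definitions

General position subsets of integer point sets of polynomial height.  The paper proof is
`/team-store/c9dfb5_paper.md` (parts A, B, C, D, E).
-/

set_option autoImplicit false

namespace Pool.Agent.Helper72.GP

open Finset Polynomial
open scoped Polynomial.Bivariate Classical

noncomputable section

/-! ## Integer points -/

/-- the integer plane -/
abbrev Pt := ℤ × ℤ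

/-- `x, y, z` lie on a line -/
def Col (x y z : Pt) : Prop := (y.1 - x.1) * (z.2 - x.2) = (y.2 - x.2) * (z.1 - x.1)

/-- at most `t` points on every line through two different points of `P` -/
def Thin (t : ℕ) (P : Finset Pt) : Prop :=
  ∀ x ∈ P, ∀ y ∈ P, x ≠ y → (P.filter (fun z => Col x y z)).card ≤ t

/-- no three points on a line -/
def GenPos (S : Finset Pt) : Prop :=
  ∀ x ∈ S, ∀ y ∈ S, ∀ z ∈ S, x ≠ y → y ≠ z → x ≠ z → ¬ Col x y z

/-- `P` contains at least `r` points in general position -/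
def HasGP (P : Finset Pt) (r : ℝ) : Prop := ∃ S ⊆ P, GenPos S ∧ r ≤ (S.card : ℝ)

/-- gcd of the coordinate differences; `0` if and only if `x = y` -/
def gd (x y : Pt) : ℕ := Int.gcd (x.1 - y.1) (x.2 - y.2)

/-- all points in the square `[0,X]²` -/
def Box (X : ℕ) (P : Finset Pt) : Prop := ∀ p ∈ P, 0 ≤ p.1 ∧ p.1 ≤ X ∧ 0 ≤ p.2 ∧ p.2 ≤ X

/-- the class of `x` modulo `h` in `P` -/
def cls (P : Finset Pt) (h : ℕ) (x : Pt) : Finset Pt := P.filter (fun y => h ∣ gd x y)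

/-- number of ordered pairs of different points with gcd `≥ G` in the class of `x` modulo `h` -/
def Fh (P : Finset Pt) (G : ℝ) (h : ℕ) (x : Pt) : ℕ :=
  ((cls P h x ×ˢ cls P h x).filter (fun p => p.1 ≠ p.2 ∧ G ≤ (gd p.1 p.2 : ℝ))).card

/-- the ratio `r_q(y)`: proportion, in the class of `x` mod `h`, of the points `≠ y` congruent to
`y` mod `h * q` -/
def rr (P : Finset Pt) (h : ℕ) (x : Pt) (q : ℕ) (y : Pt) : ℝ :=
  (((cls P (h * q) y).card : ℝ) - 1) / (cls P h x).card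

/-- von Mangoldt -/
def Lam (q : ℕ) : ℝ := ArithmeticFunction.vonMangoldt q

/-- the inequality `(free)` of Lemma C for the class of `x` mod `h` and `μ = mu` -/
def FreeAt (P : Finset Pt) (N h : ℕ) (x : Pt) (mu : ℕ) : Prop :=
  ∑ y ∈ cls P h x, ∑ q ∈ range (N + 1), Lam q * min 1 ((mu : ℝ) ^ 2 * rr P h x q y) ≤
    36 * mu * (cls P h x).card * Real.log N

/-- the inequality `(free)` of Lemma C for a set `A` itself -/
def FreeC (A : Finset Pt) (X mu : ℕ) : Prop :=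
  ∑ y ∈ A, ∑ q ∈ range (X + 1), Lam q *
      min 1 ((mu : ℝ) ^ 2 * (((A.filter (fun z => z ≠ y ∧ q ∣ gd y z)).card : ℝ) / A.card)) ≤
    36 * mu * A.card * Real.log X

/-- the right side of the claim of Part B: `s^{7/4} n^{1/4-δ/16} min(h,Y²)^{-6δ}` -/
def Rh (n δ Yr : ℝ) (h : ℕ) (s : ℝ) : ℝ :=
  s ^ ((7 : ℝ) / 4) * n ^ ((1 : ℝ) / 4 - δ / 16) * (min (h : ℝ) (Yr ^ 2)) ^ (-(6 * δ))

/-! ## Part A: the random selection -/

/-- `y` is strictly between `x` and `z` (if `x ≠ z`), `b x + a z = (a+b) y` -/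
def Tri (a b : ℕ) (x y z : Pt) : Prop :=
  0 < a ∧ 0 < b ∧ Nat.Coprime a b ∧ (b : ℤ) * x.1 + a * z.1 = (a + b) * y.1 ∧
    (b : ℤ) * x.2 + a * z.2 = (a + b) * y.2

/-- the ordered collinear triples of different points, middle point in the middle -/
def trip (P : Finset Pt) : Finset (Pt × Pt × Pt) :=
  (P ×ˢ P ×ˢ P).filter (fun τ => τ.1 ≠ τ.2.2 ∧ ∃ a b, Tri a b τ.1 τ.2.1 τ.2.2)

/-- random affine forms mod `R` (8 coordinates) -/
abbrev O1 (R : ℕ) := Fin 8 → ZMod R × ZMod R × ZMod R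

/-- random affine part of the quadratic form mod `M`: constant term, linear part -/
abbrev O2 (M : ℕ) := ZMod M × (Fin 8 → ZMod M)

/-- value of an affine form at a point -/
def lin {R : ℕ} (θ : ZMod R × ZMod R × ZMod R) (x : Pt) : ZMod R := θ.1 * x.1 + θ.2.1 * x.2 + θ.2.2

/-- the vector `U(x)` of representatives -/
def UU {R : ℕ} (ω : O1 R) (x : Pt) (i : Fin 8) : ℕ := (lin (ω i) x).val

/-- the quadratic form `|U|² + c₀ + c·U` mod `M` -/
def Fq {M : ℕ} (c : O2 M) (U : Fin 8 → ℕ) : ZMod M :=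
  ∑ i, (U i : ZMod M) ^ 2 + c.1 + ∑ i, c.2 i * (U i : ZMod M)

/-- `x` is selected -/
def Sel {R M : ℕ} (L E : ℕ) (ω : O1 R × O2 M) (x : Pt) : Prop :=
  (∀ i, UU ω.1 x i < L) ∧ (Fq ω.2 (UU ω.1 x)).val < E

/-- `k = 0` -/
def Kz (a b : ℕ) (U1 U2 U3 : Fin 8 → ℕ) : Prop := ∀ i, b * U1 i + a * U3 i = (a + b) * U2 i

/-- `U1, U2, U3` are affinely dependent over `ℤ` -/
def Dep (U1 U2 U3 : Fin 8 → ℕ) : Prop := ∀ i j,
  ((U1 i : ℤ) - U2 i) * ((U3 j : ℤ) - U2 j) = ((U1 j : ℤ) - U2 j) * ((U3 i : ℤ) - U2 i)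

/-- the relations between the parameters of Part A used for one triple -/
structure Par (N H R M L e H2 : ℕ) : Prop where
  hR : R.Prime
  hM : M.Prime
  hH : 1 ≤ H
  hHH : H ≤ H2
  hLR : H * L ≤ R
  hRL : R ≤ 2 * (H * L)
  hNL : 2 * N < L
  he : e ^ 2 ≤ 8 * L ^ 2
  he1 : 1 ≤ e
  hM1 : 16 * (H2 * L ^ 2) < M

/-- probability that one point is selected -/
def bet (R M L e : ℕ) : ℝ := ((L : ℝ) / R) ^ 8 * ((e : ℝ) ^ 2 / M)

/-! ## Part C: polynomials given by their coefficients -/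

/-- value of the polynomial `∑ c i j X^i Y^j` -/
def evc {m : ℕ} (c : Fin m → Fin m → ℤ) (x : Pt) : ℤ := ∑ i, ∑ j, c i j * x.1 ^ (i : ℕ) * x.2 ^ (j : ℕ)

/-! ## Part D: real points on a curve -/

/-- `x, y, z` lie on a line -/
def ColR (x y z : ℝ × ℝ) : Prop := (y.1 - x.1) * (z.2 - x.2) = (y.2 - x.2) * (z.1 - x.1)

/-- at most `t` points on every line through two different points of `P` -/
def ThinR (t : ℕ) (P : Finset (ℝ × ℝ)) : Prop :=
  ∀ x ∈ P, ∀ y ∈ P, x ≠ y → (P.filter (fun z => ColR x y z)).card ≤ t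

/-- no three points on a line -/
def GenPosR (S : Finset (ℝ × ℝ)) : Prop :=
  ∀ x ∈ S, ∀ y ∈ S, ∀ z ∈ S, x ≠ y → y ≠ z → x ≠ z → ¬ ColR x y z

/-- degree at most `d` in both variables -/
def BDeg (d : ℕ) (F : ℝ[X][Y]) : Prop := F.natDegree ≤ d ∧ ∀ j, (F.coeff j).natDegree ≤ d

/-- value of `f` at `(x,y)` -/
def evr (f : ℝ[X][Y]) (x y : ℝ) : ℝ := f.evalEval x y

/-- derivative with respect to `y` (the outer variable) -/
def dY (f : ℝ[X][Y]) : ℝ[X][Y] := derivative f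

/-- derivative with respect to `x` (the inner variable) -/
def dX (f : ℝ[X][Y]) : ℝ[X][Y] := f.sum (fun j a => C (derivative a) * X ^ j)

/-- `G = f_xx f_y² - 2 f_xy f_x f_y + f_yy f_x²` -/
def hes (f : ℝ[X][Y]) : ℝ[X][Y] :=
  dX (dX f) * (dY f) ^ 2 - 2 * dX (dY f) * dX f * dY f + dY (dY f) * (dX f) ^ 2

/-- number of real zeros of `f(x, ·)` below `y` -/
def rk (f : ℝ[X][Y]) (x y : ℝ) : ℕ := ((f.map (evalRingHom x)).roots.toFinset.filter (fun z => z < y)).card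

/-- `f(x,·)` has the right degree and simple real zeros, for all `x` in `[α,β]` -/
def Good (f : ℝ[X][Y]) (α β : ℝ) : Prop :=
  ∀ x ∈ Set.Icc α β, (f.leadingCoeff).eval x ≠ 0 ∧ ∀ y, evr f x y = 0 → evr (dY f) x y ≠ 0

end

end Pool.Agent.Helper72.GP
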