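import Pool.Agent.Helper72.GP.Fin

/-!
# Part A for an arbitrary family of triples
-/

set_option autoImplicit false

namespace Pool.Agent.Helper72.GP

open Finset Polynomial
open scoped Polynomial.Bivariate Classical

noncomputable section

/-- the triples of the family `TT` are triples of `V` which satisfy a relation `b x + a z = (a+b) y` -/
def Fam (V : Finset Pt) (TT : Finset (Pt × Pt × Pt)) : Prop :=
  ∀ τ ∈ TT, τ.1 ∈ V ∧ τ.2.1 ∈ V ∧ τ.2.2 ∈ V ∧ τ.1 ≠ τ.2.2 ∧ ∃ a b, Tri a b τ.1 τ.2.1 τ.2.2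

/-- all relations of the triple have height `> H` -/
def Hig (H : ℕ) (τ : Pt × Pt × Pt) : Prop := ∀ a b, Tri a b τ.1 τ.2.1 τ.2.2 → H < a + b

theorem ci_all : CI := Pool.Agent.Helper20.GP.ci Pool.Agent.Helper49.GP.fib
  Pool.Agent.Helper80.GP.w2 Pool.Agent.Helper80.GP.boxc tri

theorem cii_all : CII := Pool.Agent.Helper35.GP.cii Pool.Agent.Helper49.GP.fib
  Pool.Agent.Helper32.GP.depc tri

theorem ciii_all : CIII := Pool.Agent.Helper15.GP.ciii Pool.Agent.Helper49.GP.fib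
  Pool.Agent.Helper80.GP.w2 Pool.Agent.Helper4.GP.conv Pool.Agent.Helper80.GP.cnt

theorem civ_all : CIV := Pool.Agent.Helper66.GP.civ Pool.Agent.Helper49.GP.fib
  Pool.Agent.Helper80.GP.w2 Pool.Agent.Helper80.GP.cnt tri

section

variable {N H R M L e H2 : ℕ}

theorem sum_card_fam [NeZero R] [NeZero M] (hPar : Par N H R M L e H2) (P : Finset Pt)
    (TT : Finset (Pt × Pt × Pt)) {t T : ℕ} (hB : Box N P) (hF : Fam P TT)
    (hcard : TT.card ≤ P.card ^ 2 * t) (hT : (TT.filter (fun τ => Hig H τ)).card ≤ T)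
    (he8 : 8 * (t : ℝ) * P.card * ((2 * e : ℝ) / R) ^ 8 ≤ 1)
    (hbet : (2 / (H2 : ℝ)) ^ 8 ≤ bet R M L e)
    (herr : (P.card : ℝ) * t * (2 * (6 * N) ^ 8 / R ^ 7 + bet R M L e / R ^ 8) ≤
      bet R M L e / 8) :
    ∑ ω : O1 R × O2 M, ((TT.filter (fun τ => Sel3 L (e ^ 2) ω τ)).card : ℝ) ≤
      (R : ℝ) ^ 24 * M ^ 9 * (bet R M L e * P.card / 4 +
        (12 ^ 8 + 1) * bet R M L e ^ 3 * T) := by
  have hb := bet_nonneg (R := R) (M := M) (L := L) (e := e)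
  have hsw : ∑ ω : O1 R × O2 M, ((TT.filter (fun τ => Sel3 L (e ^ 2) ω τ)).card : ℝ) =
      ∑ τ ∈ TT, (Nat.card {ω : O1 R × O2 M // Sel3 L (e ^ 2) ω τ} : ℝ) := by
    simp_rw [Finset.card_filter, Nat.card_eq_fintype_card, Fintype.card_subtype,
      Finset.card_filter]
    push_cast
    rw [Finset.sum_comm]
  rw [hsw]
  set er : ℝ := 2 * (6 * N) ^ 8 / R ^ 7 + bet R M L e / R ^ 8 with her
  set lo : ℝ := bet R M L e * ((2 * e : ℝ) / R) ^ 8 with hlo
  set Om : ℝ := (R : ℝ) ^ 24 * M ^ 9 with hOm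
  have her0 : 0 ≤ er := by positivity
  have hlo0 : 0 ≤ lo := by positivity
  have hOm0 : 0 ≤ Om := by positivity
  have hbound : ∀ τ ∈ TT, (Nat.card {ω : O1 R × O2 M // Sel3 L (e ^ 2) ω τ} : ℝ) ≤
      Om * (er + lo) + (if Hig H τ then Om * ((12 ^ 8 + 1) * bet R M L e ^ 3) else 0) := by
    rintro ⟨x, y, z⟩ hτ
    obtain ⟨hx, hy, hz, hxz, a, b, hTr⟩ := hF _ hτ
    simp only at hx hy hz hxz hTr
    have hBx := box_pair hB hx hz
    by_cases hh : Hig H (x, y, z)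
    · have hm : H < a + b := hh a b hTr
      have h5 := high_triple ci_all cii_all ciii_all civ_all hPar hTr hxz hBx hm hbet
      rw [if_pos hh]
      refine h5.trans (le_of_eq ?_)
      rw [← her, ← hlo]
      ring
    · rw [if_neg hh]
      unfold Hig at hh
      push Not at hh
      obtain ⟨a', b', hTr', hm⟩ := hh
      have h5 := low_triple Pool.Agent.Helper86.GP.kzl ciii_all hPar hTr' hxz hBx hm
      refine h5.trans ?_
      have h7 : 0 ≤ Om * er := by positivity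
      rw [← hlo]
      nlinarith
  refine (Finset.sum_le_sum hbound).trans ?_
  rw [Finset.sum_add_distrib, Finset.sum_const, nsmul_eq_mul, ← Finset.sum_filter,
    Finset.sum_const, nsmul_eq_mul]
  have h5' : (TT.card : ℝ) ≤ (P.card : ℝ) ^ 2 * t := by exact_mod_cast hcard
  have h6' : ((TT.filter (fun τ => Hig H τ)).card : ℝ) ≤ T := by exact_mod_cast hT
  have h7 : (P.card : ℝ) ^ 2 * t * (er + lo) ≤ bet R M L e * P.card / 4 := by
    have h8 : (P.card : ℝ) * t * lo ≤ bet R M L e / 8 := by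
      rw [hlo]
      have := mul_le_mul_of_nonneg_left he8 (show 0 ≤ bet R M L e / 8 by positivity)
      nlinarith
    have h9 : (P.card : ℝ) * t * (er + lo) ≤ bet R M L e / 4 := by nlinarith
    have := mul_le_mul_of_nonneg_left h9 (show (0 : ℝ) ≤ P.card by positivity)
    nlinarith
  calc (TT.card : ℝ) * (Om * (er + lo)) +
        (TT.filter (fun τ => Hig H τ)).card * (Om * ((12 ^ 8 + 1) * bet R M L e ^ 3))
      ≤ ((P.card : ℝ) ^ 2 * t) * (Om * (er + lo)) +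
        T * (Om * ((12 ^ 8 + 1) * bet R M L e ^ 3)) := by gcongr
    _ = Om * ((P.card : ℝ) ^ 2 * t * (er + lo)) +
        Om * ((12 ^ 8 + 1) * bet R M L e ^ 3 * T) := by ring
    _ ≤ Om * (bet R M L e * P.card / 4) +
        Om * ((12 ^ 8 + 1) * bet R M L e ^ 3 * T) := by gcongr
    _ = _ := by ring

end

/-- AVG for a family -/
theorem avg_fam (P : Finset Pt) (TT : Finset (Pt × Pt × Pt)) (N H R M L e H2 t T q : ℕ)
    (hPar : Par N H R M L e H2) (hB : Box N P) (hF : Fam P TT)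
    (hcard : TT.card ≤ P.card ^ 2 * t) (hT : (TT.filter (fun τ => Hig H τ)).card ≤ T)
    (hq : 1 ≤ q)
    (he8 : 8 * (t : ℝ) * P.card * ((2 * e : ℝ) / R) ^ 8 ≤ 1)
    (hbet : (2 / (H2 : ℝ)) ^ 8 ≤ bet R M L e)
    (herr : (P.card : ℝ) * t * (2 * (6 * N) ^ 8 / R ^ 7 + bet R M L e / R ^ 8) ≤
      bet R M L e / 8)
    (hqT : 4 * (12 ^ 8 + 1) * bet R M L e ^ 2 * T ≤ (q : ℝ) ^ 2 * P.card) :
    ∃ S ⊆ P, (∀ τ ∈ TT, ¬ (τ.1 ∈ S ∧ τ.2.1 ∈ S ∧ τ.2.2 ∈ S)) ∧
      bet R M L e * P.card / (2 * q) ≤ (S.card : ℝ) := by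
  have : NeZero R := ⟨hPar.hR.ne_zero⟩
  have : NeZero M := ⟨hPar.hM.ne_zero⟩
  have hb := bet_nonneg (R := R) (M := M) (L := L) (e := e)
  set be := bet R M L e with hbe
  set Om : ℝ := (R : ℝ) ^ 24 * M ^ 9 with hOm
  have hOm0 : 0 < Om := by
    have hR' : (0 : ℝ) < R := by exact_mod_cast hPar.hR.pos
    have hM' : (0 : ℝ) < M := by exact_mod_cast hPar.hM.pos
    positivity
  have hs1 := sum_card_sel Pool.Agent.Helper25.GP.one hPar P
  have hs2 := sum_card_fam hPar P TT hB hF hcard hT he8 hbet herr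
  rw [← hOm, ← hbe] at hs1 hs2
  have hq0 : (0 : ℝ) < q := by exact_mod_cast hq
  have hq1 : (1 : ℝ) ≤ q := by exact_mod_cast hq
  -- a good `ω`
  obtain ⟨ω, hω⟩ : ∃ ω : O1 R × O2 M, be * P.card / (2 * q) ≤
      ((P.filter (fun x => Sel L (e ^ 2) ω x)).card : ℝ) / q -
        ((TT.filter (fun τ => Sel3 L (e ^ 2) ω τ)).card : ℝ) / q ^ 3 := by
    by_contra hcon
    push Not at hcon
    have hlt : ∑ ω : O1 R × O2 M, (((P.filter (fun x => Sel L (e ^ 2) ω x)).card : ℝ) / q -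
        ((TT.filter (fun τ => Sel3 L (e ^ 2) ω τ)).card : ℝ) / q ^ 3) <
        ∑ ω : O1 R × O2 M, be * P.card / (2 * q) :=
      Finset.sum_lt_sum_of_nonempty ⟨0, mem_univ _⟩ (fun ω _ => hcon ω)
    rw [Finset.sum_sub_distrib, ← Finset.sum_div, ← Finset.sum_div, hs1, Finset.sum_const,
      nsmul_eq_mul, Finset.card_univ, card_omega, ← hOm] at hlt
    have h5 : (∑ ω : O1 R × O2 M, ((TT.filter (fun τ => Sel3 L (e ^ 2) ω τ)).card : ℝ)) /
        q ^ 3 ≤ Om * (be * P.card / (2 * q)) := by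
      rw [div_le_iff₀ (by positivity)]
      refine hs2.trans ?_
      have h6 : (12 ^ 8 + 1) * be ^ 3 * T ≤ be * P.card * q ^ 2 / 4 := by
        have := mul_le_mul_of_nonneg_left hqT hb
        nlinarith
      have h7 : be * P.card / 4 ≤ be * P.card * q ^ 2 / 4 := by
        have h8 : (1 : ℝ) ≤ (q : ℝ) ^ 2 := one_le_pow₀ hq1
        have h9 : 0 ≤ be * P.card := by positivity
        nlinarith
      have h10 : Om * (be * P.card / (2 * q)) * q ^ 3 =
          Om * (be * P.card * q ^ 2 / 2) := by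
        field_simp
      rw [h10]
      refine mul_le_mul_of_nonneg_left ?_ hOm0.le
      linarith
    have h6 : Om * (be * P.card) / q = Om * (be * P.card / (2 * q)) +
        Om * (be * P.card / (2 * q)) := by
      field_simp
      ring
    rw [h6] at hlt
    linarith
  obtain ⟨S, hSV, hST, hcS⟩ := Pool.Agent.Helper8.GP.samp Pt
    (P.filter (fun x => Sel L (e ^ 2) ω x))
    (TT.filter (fun τ => Sel3 L (e ^ 2) ω τ)) q hq (by
      rintro ⟨x, y, z⟩ hτ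
      rw [mem_filter] at hτ
      obtain ⟨hτ, hs⟩ := hτ
      obtain ⟨hx, hy, hz, hxz, a, b, hTr⟩ := hF _ hτ
      simp only at hx hy hz hxz hTr ⊢
      obtain ⟨-, -, -, h7⟩ := tri.2.1 a b x y z hTr
      simp only [mem_filter]
      exact ⟨⟨hx, hs.1⟩, ⟨hy, hs.2.1⟩, ⟨hz, hs.2.2⟩, (h7 hxz).1, (h7 hxz).2, hxz⟩)
  refine ⟨S, fun x hx => (mem_filter.1 (hSV hx)).1, ?_, hω.trans hcS⟩
  rintro ⟨x, y, z⟩ hτ ⟨hx, hy, hz⟩
  have hx' := mem_filter.1 (hSV hx)
  have hy' := mem_filter.1 (hSV hy)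
  have hz' := mem_filter.1 (hSV hz)
  refine hST (x, y, z) ?_ ⟨hx, hy, hz⟩
  rw [mem_filter]
  exact ⟨hτ, hx'.2, hy'.2, hz'.2⟩

/-- Lemma A for a family of triples -/
theorem lemf : ∃ n1 : ℕ, ∃ c1 : ℝ, 0 < c1 ∧ ∀ (P : Finset Pt) (TT : Finset (Pt × Pt × Pt))
    (N H t T : ℕ), n1 ≤ P.card → 1 ≤ N → Box N P → Fam P TT → TT.card ≤ P.card ^ 2 * t →
    (TT.filter (fun τ => Hig H τ)).card ≤ T → 2 ≤ t →
    (t : ℝ) ≤ (P.card : ℝ) ^ ((1 : ℝ) / 8) → 1 ≤ H → (H : ℝ) ≤ (P.card : ℝ) ^ ((1 : ℝ) / 48) →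
    ∃ S ⊆ P, (∀ τ ∈ TT, ¬ (τ.1 ∈ S ∧ τ.2.1 ∈ S ∧ τ.2.2 ∈ S)) ∧
      c1 * min ((P.card : ℝ) ^ ((17 : ℝ) / 32))
        ((P.card : ℝ) ^ ((3 : ℝ) / 2) / ((T : ℝ) + 1) ^ ((1 : ℝ) / 2)) ≤ (S.card : ℝ) := by
  obtain ⟨n1, hn1⟩ := Pool.Agent.Helper95.GP.par
  refine ⟨n1 + 1, 1 / 100000000, by norm_num, ?_⟩
  intro P TT N H t T hP hN hB hF hcd hT ht ht8 hH hH48
  obtain ⟨R, M, L, e, H2, hPar, he8, hbet, herr, hlow, hb1⟩ :=
    hn1 P.card N H t (by omega) hN hH hH48 ht ht8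
  have hn0 : 0 < P.card := by omega
  set n : ℝ := (P.card : ℝ) with hn
  have hn0' : (1 : ℝ) ≤ n := by rw [hn]; exact_mod_cast hn0
  set be := bet R M L e with hbe
  have hbpos : 0 < be := lt_of_lt_of_le (by positivity) hlow
  -- the number q
  set K : ℝ := 4 * (12 ^ 8 + 1) * be ^ 2 * T with hK
  have hK0 : 0 ≤ K := by positivity
  set r : ℝ := Real.sqrt (K / n) with hr
  have hr0 : 0 ≤ r := Real.sqrt_nonneg _
  set q : ℕ := ⌈r⌉₊ + 1 with hq
  have hqr : r ≤ q := by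
    rw [hq]
    push_cast
    have := Nat.le_ceil r
    linarith
  have hqr2 : (q : ℝ) ≤ r + 2 := by
    rw [hq]
    push_cast
    have := Nat.ceil_lt_add_one hr0
    linarith
  have hr2 : r ^ 2 = K / n := Real.sq_sqrt (by positivity)
  have hcond : 4 * (12 ^ 8 + 1) * be ^ 2 * T ≤ (q : ℝ) ^ 2 * P.card := by
    rw [← hK, ← hn]
    have h1 : r ^ 2 ≤ (q : ℝ) ^ 2 := pow_le_pow_left₀ hr0 hqr 2
    have h2 : K = r ^ 2 * n := by rw [hr2, div_mul_cancel₀ _ (by linarith)]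
    calc K = r ^ 2 * n := h2
      _ ≤ (q : ℝ) ^ 2 * n := mul_le_mul_of_nonneg_right h1 (by linarith)
  obtain ⟨S, hSP, hST, hmain⟩ := avg_fam P TT N H R M L e H2 t T q hPar hB hF hcd hT (by omega)
    he8 hbet herr hcond
  refine ⟨S, hSP, hST, le_trans ?_ hmain⟩
  rw [← hbe, ← hn]
  -- two cases
  have hq0 : (0 : ℝ) < q := by rw [hq]; positivity
  rcases le_or_gt r 2 with h2 | h2
  · -- q ≤ 4
    have h3 : (q : ℝ) ≤ 4 := by linarith
    have h4 : be * n / 8 ≤ be * n / (2 * q) := by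
      apply div_le_div_of_nonneg_left (by positivity) (by positivity)
      linarith
    refine le_trans ?_ h4
    have h5 : n ^ (-(15 : ℝ) / 32) * n = n ^ ((17 : ℝ) / 32) := by
      nth_rewrite 2 [← Real.rpow_one n]
      rw [← Real.rpow_add (by linarith)]
      norm_num
    have h6 : n ^ ((17 : ℝ) / 32) / 4000000 ≤ be * n := by
      rw [← h5]
      have := mul_le_mul_of_nonneg_right hlow (show (0 : ℝ) ≤ n by linarith)
      linarith
    have h7 : min (n ^ ((17 : ℝ) / 32)) (n ^ ((3 : ℝ) / 2) / ((T : ℝ) + 1) ^ ((1 : ℝ) / 2)) ≤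
        n ^ ((17 : ℝ) / 32) := min_le_left _ _
    have h8 : 0 ≤ n ^ ((17 : ℝ) / 32) := by positivity
    linarith
  · -- q ≤ 2 r
    have h3 : (q : ℝ) ≤ 2 * r := by linarith
    have h4 : be * n / (4 * r) ≤ be * n / (2 * q) := by
      apply div_le_div_of_nonneg_left (by positivity) (by positivity)
      linarith
    refine le_trans ?_ h4
    have h7 : min (n ^ ((17 : ℝ) / 32)) (n ^ ((3 : ℝ) / 2) / ((T : ℝ) + 1) ^ ((1 : ℝ) / 2)) ≤
        n ^ ((3 : ℝ) / 2) / ((T : ℝ) + 1) ^ ((1 : ℝ) / 2) := min_le_right _ _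
    have hr' : r ≤ 50000 * be * (((T : ℝ) + 1) ^ ((1 : ℝ) / 2) / n ^ ((1 : ℝ) / 2)) := by
      rw [hr]
      rw [Real.sqrt_le_left (by positivity)]
      rw [mul_pow, mul_pow, div_pow]
      have e1 : (((T : ℝ) + 1) ^ ((1 : ℝ) / 2)) ^ 2 = (T : ℝ) + 1 := by
        rw [← Real.rpow_natCast, ← Real.rpow_mul (by positivity)]; norm_num
      have e2 : (n ^ ((1 : ℝ) / 2)) ^ 2 = n := by
        rw [← Real.rpow_natCast, ← Real.rpow_mul (by positivity)]; norm_num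
      rw [e1, e2, ← mul_div_assoc, hK]
      apply div_le_div_of_nonneg_right _ (by linarith)
      have h9 : (0 : ℝ) ≤ be ^ 2 := by positivity
      have h10 : (0 : ℝ) ≤ be ^ 2 * T := by positivity
      have h11 : (4 * (12 ^ 8 + 1) : ℝ) ≤ 50000 ^ 2 := by norm_num
      calc 4 * (12 ^ 8 + 1) * be ^ 2 * T = (4 * (12 ^ 8 + 1)) * (be ^ 2 * T) := by ring
        _ ≤ 50000 ^ 2 * (be ^ 2 * T) := mul_le_mul_of_nonneg_right h11 h10
        _ ≤ 50000 ^ 2 * be ^ 2 * (T + 1) := by linarith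
    have hr1 : 0 < r := by linarith
    rw [le_div_iff₀ (by positivity)]
    have e3 : n ^ ((3 : ℝ) / 2) = n * n ^ ((1 : ℝ) / 2) := by
      nth_rewrite 2 [← Real.rpow_one n]
      rw [← Real.rpow_add (by linarith)]
      norm_num
    set s : ℝ := ((T : ℝ) + 1) ^ ((1 : ℝ) / 2) with hs
    set u : ℝ := n ^ ((1 : ℝ) / 2) with hu
    have hs0 : 0 < s := by positivity
    have hu0 : 0 < u := by positivity
    calc 1 / 100000000 * min (n ^ ((17 : ℝ) / 32)) (n ^ ((3 : ℝ) / 2) / s) * (4 * r)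
        ≤ 1 / 100000000 * (n ^ ((3 : ℝ) / 2) / s) * (4 * (50000 * be * (s / u))) := by
          gcongr
      _ = (1 / 500) * (be * n) * (s / s) * (u / u) := by
          rw [e3]
          ring
      _ = (1 / 500) * (be * n) := by
          rw [div_self hs0.ne', div_self hu0.ne', mul_one, mul_one]
      _ ≤ be * n := by nlinarith [mul_pos hbpos (show (0 : ℝ) < n by linarith)]

end

end Pool.Agent.Helper72.GP
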