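import Pool.Agent.Helper72.GP.GoalsB

set_option autoImplicit false

namespace Pool.Agent.Helper72.GP

open Finset Polynomial
open scoped Polynomial.Bivariate Classical

noncomputable section

theorem bern (r : ℝ) (h0 : 0 ≤ r) (h1 : r ≤ 1) (m : ℕ) : (1 - r) ^ m * (1 + m * r) ≤ 1 := by
  induction m with
  | zero => simp
  | succ m ih =>
    have h2 : 0 ≤ (1 - r) ^ m := pow_nonneg (by linarith) m
    have h3 : (1 - r) * (1 + ((m + 1 : ℕ) : ℝ) * r) ≤ 1 + m * r := by
      push_cast
      nlinarith [mul_nonneg (show (0 : ℝ) ≤ (m : ℝ) + 1 by positivity) (mul_nonneg h0 h0)]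
    calc (1 - r) ^ (m + 1) * (1 + ((m + 1 : ℕ) : ℝ) * r)
        = (1 - r) ^ m * ((1 - r) * (1 + ((m + 1 : ℕ) : ℝ) * r)) := by ring
      _ ≤ (1 - r) ^ m * (1 + m * r) := mul_le_mul_of_nonneg_left h3 h2
      _ ≤ 1 := ih

theorem hit : HIT := by
  intro A B m hA hBA
  have hA0 : (0 : ℝ) < A.card := by exact_mod_cast hA.card_pos
  have hsplit := Finset.card_filter_add_card_filter_not (s := Fintype.piFinset (fun _ : Fin m => A))
    (fun S : Fin m → Pt => ∃ k, S k ∈ B)
  have hcomp : ((Fintype.piFinset (fun _ : Fin m => A)).filter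
      (fun S : Fin m → Pt => ¬ ∃ k, S k ∈ B)) = Fintype.piFinset (fun _ : Fin m => A \ B) := by
    ext S
    rw [mem_filter, Fintype.mem_piFinset, Fintype.mem_piFinset]
    push Not
    constructor
    · rintro ⟨h1, h2⟩ k
      exact mem_sdiff.2 ⟨h1 k, h2 k⟩
    · intro h
      exact ⟨fun k => (mem_sdiff.1 (h k)).1, fun k => (mem_sdiff.1 (h k)).2⟩
  rw [hcomp, Fintype.card_piFinset, Fintype.card_piFinset] at hsplit
  simp only [prod_const, card_univ, Fintype.card_fin] at hsplit
  have hsplit' : (((Fintype.piFinset (fun _ : Fin m => A)).filter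
      (fun S : Fin m → Pt => ∃ k, S k ∈ B)).card : ℝ) + ((A \ B).card : ℝ) ^ m =
      (A.card : ℝ) ^ m := by exact_mod_cast hsplit
  obtain ⟨r, hr⟩ : ∃ r : ℝ, r = (B.card : ℝ) / A.card := ⟨_, rfl⟩
  have hr0 : 0 ≤ r := by rw [hr]; positivity
  have hr1 : r ≤ 1 := by
    rw [hr, div_le_one hA0]
    exact_mod_cast Finset.card_le_card hBA
  have hdiff : ((A \ B).card : ℝ) = (A.card : ℝ) * (1 - r) := by
    rw [Finset.card_sdiff_of_subset hBA, Nat.cast_sub (Finset.card_le_card hBA), hr]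
    field_simp
  rw [hdiff, mul_pow] at hsplit'
  rw [← hr]
  have hb := bern r hr0 hr1 m
  have hp : 0 ≤ (1 - r) ^ m := pow_nonneg (by linarith) m
  have hmr : 0 ≤ (m : ℝ) * r := by positivity
  have hkey : min 1 ((m : ℝ) * r) / 2 ≤ 1 - (1 - r) ^ m := by
    rcases le_total 1 ((m : ℝ) * r) with h | h
    · rw [min_eq_left h]
      nlinarith
    · rw [min_eq_right h]
      have : (1 - r) ^ m ≤ 1 - (m : ℝ) * r / 2 := by
        by_contra hcon
        push Not at hcon
        nlinarith [mul_lt_mul_of_pos_right hcon (show 0 < 1 + (m : ℝ) * r by linarith)]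
      linarith
  have hApow : 0 ≤ (A.card : ℝ) ^ m := by positivity
  nlinarith [mul_le_mul_of_nonneg_right hkey hApow]

end

end Pool.Agent.Helper72.GP
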