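import Pool.Agent.Helper72.GP.GoalsB

set_option autoImplicit false

namespace Pool.Agent.Helper72.GP

open Finset Polynomial
open scoped Polynomial.Bivariate Classical

noncomputable section

theorem cls_subset (P : Finset Pt) (h : ℕ) (x : Pt) : cls P h x ⊆ P := filter_subset _ _

theorem cls_one (P : Finset Pt) (x : Pt) : cls P 1 x = P := by
  unfold cls
  apply Finset.filter_true_of_mem
  intro y _
  exact one_dvd _

/-- KEY from STEP and BASE -/
theorem key_of (hSTEP : STEP) (hBASE : BASE) : KEY := by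
  intro C δ hC hδ0 hδ1
  -- the constant `W`
  obtain ⟨W, hW⟩ : ∃ W : ℕ, W = ⌈(2360 * 96 * (C : ℝ)) ^ (1 / (6 * δ))⌉₊ + 1 := ⟨_, rfl⟩
  have hW1 : 1 ≤ W := by omega
  have hCR : (1 : ℝ) ≤ C := by exact_mod_cast hC
  have hWC : 2360 * 96 * (C : ℝ) ≤ (W : ℝ) ^ (6 * δ) := by
    have h1 : (2360 * 96 * (C : ℝ)) ^ (1 / (6 * δ)) ≤ W := by
      rw [hW]
      push_cast
      have := Nat.le_ceil ((2360 * 96 * (C : ℝ)) ^ (1 / (6 * δ)))
      linarith
    calc 2360 * 96 * (C : ℝ) = ((2360 * 96 * (C : ℝ)) ^ (1 / (6 * δ))) ^ (6 * δ) := by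
          rw [← Real.rpow_mul (by positivity), one_div_mul_cancel (by positivity), Real.rpow_one]
      _ ≤ (W : ℝ) ^ (6 * δ) := by
          apply Real.rpow_le_rpow (by positivity) h1 (by positivity)
  obtain ⟨n2, hn2⟩ : ∃ n2 : ℕ, ∀ n : ℕ, n2 ≤ n → (W : ℝ) < (n : ℝ) ^ ((1 : ℝ) / 96) ∧
      4 * ∑ q ∈ range (W + 1), Lam q ≤ Real.log ((n : ℝ) ^ ((1 : ℝ) / 96)) := by
    have h1 : Filter.Tendsto (fun n : ℕ => (n : ℝ) ^ ((1 : ℝ) / 96)) Filter.atTop Filter.atTop :=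
      (tendsto_rpow_atTop (by norm_num)).comp tendsto_natCast_atTop_atTop
    have h2 := Real.tendsto_log_atTop.comp h1
    obtain ⟨n2, h⟩ := Filter.eventually_atTop.1
      ((h1.eventually_gt_atTop (W : ℝ)).and
        (h2.eventually_ge_atTop (4 * ∑ q ∈ range (W + 1), Lam q)))
    exact ⟨n2, h⟩
  refine ⟨max n2 1, ?_⟩
  intro P N J hP hB hN hNC hJ hB1 hB2
  obtain ⟨hWY, hLY⟩ := hn2 P.card (by omega)
  have hP1 : 1 ≤ P.card := by omega
  obtain ⟨n, hn⟩ : ∃ n : ℝ, n = (P.card : ℝ) := ⟨_, rfl⟩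
  obtain ⟨Yr, hYr⟩ : ∃ Yr : ℝ, Yr = (P.card : ℝ) ^ ((1 : ℝ) / 96) := ⟨_, rfl⟩
  rw [← hYr] at hWY hLY hB1 hB2
  have hn1 : (1 : ℝ) ≤ n := by rw [hn]; exact_mod_cast hP1
  have hWR : (1 : ℝ) ≤ W := by exact_mod_cast hW1
  have hY1 : 1 < Yr := by linarith
  have hlogY : 0 < Real.log Yr := Real.log_pos hY1
  have hlogn : Real.log n = 96 * Real.log Yr := by
    rw [hYr, ← hn, Real.log_rpow (by linarith)]
    ring
  have hlogN : Real.log N ≤ 96 * C * Real.log Yr := by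
    have h1 : Real.log N ≤ Real.log (n ^ C) := by
      apply Real.log_le_log (by positivity)
      rw [hn]
      exact hNC
    rw [Real.log_pow, hlogn] at h1
    linarith
  have hlogN0 : 0 ≤ Real.log N := Real.log_natCast_nonneg N
  have claim : ∀ k : ℕ, ∀ h : ℕ, ⌈Yr⌉₊ ≤ h + k → 1 ≤ h → ∀ x ∈ P,
      (Fh P (Yr ^ 2) h x : ℝ) ≤ Rh P.card δ Yr h (cls P h x).card := by
    intro k
    induction k with
    | zero =>
      intro h hk h1 x hx
      have hY : Yr ≤ h := (Nat.le_ceil Yr).trans (by exact_mod_cast hk)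
      exact (hBASE P h x δ Yr hx hδ0 hδ1 h1 hYr hY1).1 (hB1 h hY x hx)
    | succ k ih =>
      intro h hk h1 x hx
      rcases le_or_gt Yr (h : ℝ) with hY | hY
      · exact (hBASE P h x δ Yr hx hδ0 hδ1 h1 hYr hY1).1 (hB1 h hY x hx)
      rcases lt_or_ge ((cls P h x).card : ℝ) ((P.card : ℝ) ^ (1 - δ / 2)) with hc | hc
      · exact (hBASE P h x δ Yr hx hδ0 hδ1 h1 hYr hY1).2 hY hc
      refine hSTEP P N h x δ Yr J W hB hN h1 hx hδ0 hδ1 hYr hY1 hY hW1 hWY.le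
        (hB2 h h1 hY x hx hc) ?_ ?_ ?_ ?_
      · intro q hq y hy
        apply ih (h * q) _ _ y (cls_subset _ _ _ hy)
        · have : h + 1 ≤ h * q := by nlinarith
          omega
        · nlinarith
      · calc 144 * Real.log N * (P.card : ℝ) ^ (δ / 8)
            ≤ 144 * (96 * C * Real.log Yr) * (P.card : ℝ) ^ (δ / 8) := by gcongr
          _ = (13824 * (C : ℝ) * (P.card : ℝ) ^ (δ / 8)) * Real.log Yr := by ring
          _ ≤ (2 : ℝ) ^ J * Real.log Yr := mul_le_mul_of_nonneg_right hJ hlogY.le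
      · linarith
      · calc 2360 * Real.log N ≤ 2360 * (96 * C * Real.log Yr) := by gcongr
          _ = (2360 * 96 * (C : ℝ)) * Real.log Yr := by ring
          _ ≤ (W : ℝ) ^ (6 * δ) * Real.log Yr := mul_le_mul_of_nonneg_right hWC hlogY.le
  obtain ⟨x, hx⟩ : P.Nonempty := Finset.card_pos.1 hP1
  have hfin := claim ⌈Yr⌉₊ 1 (by omega) le_rfl x hx
  have hY2 : Yr ^ 2 = (P.card : ℝ) ^ ((1 : ℝ) / 48) := by
    rw [hYr, ← Real.rpow_natCast, ← Real.rpow_mul (by positivity)]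
    norm_num
  have hR : Rh P.card δ Yr 1 (cls P 1 x).card = (P.card : ℝ) ^ (2 - δ / 16) := by
    unfold Rh
    rw [cls_one, ← hn]
    have h1 : min ((1 : ℕ) : ℝ) (Yr ^ 2) = 1 := by
      rw [Nat.cast_one]
      apply min_eq_left
      nlinarith
    rw [h1, Real.one_rpow, mul_one, ← Real.rpow_add (by linarith)]
    congr 1
    ring
  rw [hR] at hfin
  unfold Fh at hfin
  rw [cls_one, hY2] at hfin
  exact hfin

end

end Pool.Agent.Helper72.GP
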