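import Pool.Agent.Helper72.GP.GoalsB

set_option autoImplicit false

namespace Pool.Agent.Helper72.GP

open Finset Polynomial
open scoped Polynomial.Bivariate Classical

noncomputable section

theorem HasGP.mono {P : Finset Pt} {r s : ℝ} (h : HasGP P r) (hs : s ≤ r) : HasGP P s := by
  obtain ⟨S, hS, hG, hr⟩ := h
  exact ⟨S, hS, hG, hs.trans hr⟩

theorem lema_of (hAVG : AVG) (hPAR : PAR) : LEMA := by
  obtain ⟨n1, hn1⟩ := hPAR
  refine ⟨n1 + 1, 1 / 100000000, by norm_num, ?_⟩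
  intro P N H t T hP hN hB hThin ht ht8 hH hH48 hT
  obtain ⟨R, M, L, e, H2, hPar, he8, hbet, herr, hlow, hb1⟩ :=
    hn1 P.card N H t (by omega) hN hH hH48 ht ht8
  have hn0 : 0 < P.card := by omega
  set n : ℝ := (P.card : ℝ) with hn
  have hn0' : (1 : ℝ) ≤ n := by rw [hn]; exact_mod_cast hn0
  set be := bet R M L e with hbe
  have hbpos : 0 < be := lt_of_lt_of_le (by positivity) hlow
  -- the number q
  set K : ℝ := 4 * (12 ^ 8 + 1) * be ^ 2 * t * T with hK
  have hK0 : 0 ≤ K := by positivity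
  set r : ℝ := Real.sqrt (K / n) with hr
  have hr0 : 0 ≤ r := Real.sqrt_nonneg _
  set q : ℕ := ⌈r⌉₊ + 1 with hq
  have hqr : r ≤ q := by
    rw [hq]
    push_cast
    have := Nat.le_ceil r
    linarith
  have hqr2 : (q : ℝ) ≤ r + 2 := by
    rw [hq]
    push_cast
    have := Nat.ceil_lt_add_one hr0
    linarith
  have hr2 : r ^ 2 = K / n := Real.sq_sqrt (by positivity)
  have hcond : 4 * (12 ^ 8 + 1) * be ^ 2 * t * T ≤ (q : ℝ) ^ 2 * P.card := by
    rw [← hK, ← hn]
    have h1 : r ^ 2 ≤ (q : ℝ) ^ 2 := pow_le_pow_left₀ hr0 hqr 2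
    have h2 : K = r ^ 2 * n := by rw [hr2, div_mul_cancel₀ _ (by linarith)]
    calc K = r ^ 2 * n := h2
      _ ≤ (q : ℝ) ^ 2 * n := mul_le_mul_of_nonneg_right h1 (by linarith)
  have hmain := hAVG P N H R M L e H2 t T q hPar hB hThin (by omega) (by omega) hn0 hT he8 hbet
    herr hcond
  refine hmain.mono ?_
  rw [← hbe, ← hn]
  -- two cases
  have hq0 : (0 : ℝ) < q := by rw [hq]; positivity
  rcases le_or_gt r 2 with h2 | h2
  · -- q ≤ 4
    have h3 : (q : ℝ) ≤ 4 := by linarith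
    have h4 : be * n / 8 ≤ be * n / (2 * q) := by
      apply div_le_div_of_nonneg_left (by positivity) (by positivity)
      linarith
    refine le_trans ?_ h4
    have h5 : n ^ (-(15 : ℝ) / 32) * n = n ^ ((17 : ℝ) / 32) := by
      nth_rewrite 2 [← Real.rpow_one n]
      rw [← Real.rpow_add (by linarith)]
      norm_num
    have h6 : n ^ ((17 : ℝ) / 32) / 4000000 ≤ be * n := by
      rw [← h5]
      have := mul_le_mul_of_nonneg_right hlow (show (0 : ℝ) ≤ n by linarith)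
      linarith
    have h7 : min (n ^ ((17 : ℝ) / 32)) (n ^ ((3 : ℝ) / 2) / ((t : ℝ) * T + 1) ^ ((1 : ℝ) / 2)) ≤
        n ^ ((17 : ℝ) / 32) := min_le_left _ _
    have h8 : 0 ≤ n ^ ((17 : ℝ) / 32) := by positivity
    linarith
  · -- q ≤ 2 r
    have h3 : (q : ℝ) ≤ 2 * r := by linarith
    have h4 : be * n / (4 * r) ≤ be * n / (2 * q) := by
      apply div_le_div_of_nonneg_left (by positivity) (by positivity)
      linarith
    refine le_trans ?_ h4
    have h7 : min (n ^ ((17 : ℝ) / 32)) (n ^ ((3 : ℝ) / 2) / ((t : ℝ) * T + 1) ^ ((1 : ℝ) / 2)) ≤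
        n ^ ((3 : ℝ) / 2) / ((t : ℝ) * T + 1) ^ ((1 : ℝ) / 2) := min_le_right _ _
    have hr' : r ≤ 50000 * be * (((t : ℝ) * T + 1) ^ ((1 : ℝ) / 2) / n ^ ((1 : ℝ) / 2)) := by
      rw [hr]
      rw [Real.sqrt_le_left (by positivity)]
      rw [mul_pow, mul_pow, div_pow]
      have e1 : (((t : ℝ) * T + 1) ^ ((1 : ℝ) / 2)) ^ 2 = (t : ℝ) * T + 1 := by
        rw [← Real.rpow_natCast, ← Real.rpow_mul (by positivity)]; norm_num
      have e2 : (n ^ ((1 : ℝ) / 2)) ^ 2 = n := by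
        rw [← Real.rpow_natCast, ← Real.rpow_mul (by positivity)]; norm_num
      rw [e1, e2, ← mul_div_assoc, hK]
      apply div_le_div_of_nonneg_right _ (by linarith)
      have h9 : (0 : ℝ) ≤ be ^ 2 := by positivity
      have h10 : (0 : ℝ) ≤ be ^ 2 * (t * T) := by positivity
      have h11 : (4 * (12 ^ 8 + 1) : ℝ) ≤ 50000 ^ 2 := by norm_num
      calc 4 * (12 ^ 8 + 1) * be ^ 2 * t * T = (4 * (12 ^ 8 + 1)) * (be ^ 2 * (t * T)) := by ring
        _ ≤ 50000 ^ 2 * (be ^ 2 * (t * T)) := mul_le_mul_of_nonneg_right h11 h10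
        _ ≤ 50000 ^ 2 * be ^ 2 * (t * T + 1) := by linarith
    have hr1 : 0 < r := by linarith
    rw [le_div_iff₀ (by positivity)]
    have e3 : n ^ ((3 : ℝ) / 2) = n * n ^ ((1 : ℝ) / 2) := by
      nth_rewrite 2 [← Real.rpow_one n]
      rw [← Real.rpow_add (by linarith)]
      norm_num
    set s : ℝ := ((t : ℝ) * T + 1) ^ ((1 : ℝ) / 2) with hs
    set u : ℝ := n ^ ((1 : ℝ) / 2) with hu
    have hs0 : 0 < s := by positivity
    have hu0 : 0 < u := by positivity
    calc 1 / 100000000 * min (n ^ ((17 : ℝ) / 32)) (n ^ ((3 : ℝ) / 2) / s) * (4 * r)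
        ≤ 1 / 100000000 * (n ^ ((3 : ℝ) / 2) / s) * (4 * (50000 * be * (s / u))) := by
          gcongr
      _ = (1 / 500) * (be * n) * (s / s) * (u / u) := by
          rw [e3]
          ring
      _ = (1 / 500) * (be * n) := by
          rw [div_self hs0.ne', div_self hu0.ne', mul_one, mul_one]
      _ ≤ be * n := by nlinarith [mul_pos hbpos (show (0 : ℝ) < n by linarith)]

end

end Pool.Agent.Helper72.GP
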