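import Pool.Agent.Helper72.GP.GoalsB

set_option autoImplicit false

namespace Pool.Agent.Helper72.GP

open Finset Polynomial
open scoped Polynomial.Bivariate Classical

noncomputable section

theorem Lam_nonneg (q : ℕ) : 0 ≤ Lam q := ArithmeticFunction.vonMangoldt_nonneg

/-- LEMC from SIEG, WDIV, HIT -/
theorem lemc_of (hSIEG : SIEG) (hWDIV : WDIV) (hHIT : HIT) : LEMC := by
  intro A X mu hA hBox hX hmu
  by_cases hcur : ∃ c : Fin (2 * mu) → Fin (2 * mu) → ℤ, c ≠ 0 ∧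
    (A.card : ℝ) / mu < ((A.filter (fun p => evc c p = 0)).card : ℝ)
  · exact Or.inl hcur
  right
  push Not at hcur
  have hX1 : (1 : ℝ) ≤ X := by exact_mod_cast (by omega : 1 ≤ X)
  have hmuR : (1 : ℝ) ≤ mu := by exact_mod_cast hmu
  have hlogX : 0 ≤ Real.log X := Real.log_nonneg hX1
  have hA0 : (0 : ℝ) < A.card := by exact_mod_cast hA.card_pos
  set m : ℕ := mu ^ 2 with hm
  set Q : Finset ℕ := range (X + 1) with hQ
  set Pi : Finset (Fin m → Pt) := Fintype.piFinset (fun _ : Fin m => A) with hPi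
  have hPiA : ∀ S ∈ Pi, ∀ k, S k ∈ A := fun S hS k => by
    rw [hPi, Fintype.mem_piFinset] at hS
    exact hS k
  have hPic : (Pi.card : ℝ) = (A.card : ℝ) ^ m := by
    rw [hPi, Fintype.card_piFinset]
    simp
  -- bound for one `S`
  have hS1 : ∀ S ∈ Pi, ∑ x ∈ A, ∑ q ∈ Q, Lam q *
      (if ∃ k, S k ≠ x ∧ q ∣ gd x (S k) then (1 : ℝ) else 0) ≤ 15 * mu * A.card * Real.log X := by
    intro S hS
    have hSA := hPiA S hS
    obtain ⟨c, hc0, hc1, hc2⟩ := hSIEG X mu hX hmu S (fun k => hBox _ (hSA k))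
    have hx : ∀ x ∈ A, ∑ q ∈ Q, Lam q *
        (if ∃ k, S k ≠ x ∧ q ∣ gd x (S k) then (1 : ℝ) else 0) ≤
        14 * mu * Real.log X + (if evc c x = 0 then (mu : ℝ) ^ 2 * Real.log X else 0) := by
      intro x hx
      by_cases h0 : evc c x = 0
      · rw [if_pos h0]
        have h1 := hWDIV.2 X m S x Q (by omega) (hBox x hx) (fun k => hBox _ (hSA k))
        have h2 : ((m : ℕ) : ℝ) = (mu : ℝ) ^ 2 := by rw [hm]; push_cast; rfl
        rw [h2] at h1
        have h3 : 0 ≤ 14 * mu * Real.log X := by positivity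
        linarith
      · rw [if_neg h0, add_zero]
        exact (hWDIV.1 (2 * mu) m c S x Q hc1 h0).trans (hc2 x (hBox x hx) h0)
    refine (Finset.sum_le_sum hx).trans ?_
    rw [Finset.sum_add_distrib, Finset.sum_const, nsmul_eq_mul, ← Finset.sum_filter,
      Finset.sum_const, nsmul_eq_mul]
    have h4 := hcur c hc0
    have h5 : ((A.filter (fun p => evc c p = 0)).card : ℝ) * ((mu : ℝ) ^ 2 * Real.log X) ≤
        ((A.card : ℝ) / mu) * ((mu : ℝ) ^ 2 * Real.log X) :=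
      mul_le_mul_of_nonneg_right h4 (by positivity)
    have h6 : ((A.card : ℝ) / mu) * ((mu : ℝ) ^ 2 * Real.log X) = mu * A.card * Real.log X := by
      field_simp
    rw [h6] at h5
    calc (A.card : ℝ) * (14 * mu * Real.log X) +
          ((A.filter (fun p => evc c p = 0)).card : ℝ) * ((mu : ℝ) ^ 2 * Real.log X)
        ≤ (A.card : ℝ) * (14 * mu * Real.log X) + mu * A.card * Real.log X := by gcongr
      _ = _ := by ring
  -- bound for one pair `x, q`
  have hxq : ∀ x ∈ A, ∀ q ∈ Q, min 1 ((mu : ℝ) ^ 2 *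
      (((A.filter (fun z => z ≠ x ∧ q ∣ gd x z)).card : ℝ) / A.card)) / 2 * (A.card : ℝ) ^ m ≤
      ∑ S ∈ Pi, (if ∃ k, S k ≠ x ∧ q ∣ gd x (S k) then (1 : ℝ) else 0) := by
    intro x _ q _
    have h1 := hHIT A (A.filter (fun z => z ≠ x ∧ q ∣ gd x z)) m hA (filter_subset _ _)
    have h2 : ((m : ℕ) : ℝ) = (mu : ℝ) ^ 2 := by rw [hm]; push_cast; rfl
    rw [h2] at h1
    refine h1.trans (le_of_eq ?_)
    rw [← Finset.sum_filter, Finset.sum_const, nsmul_eq_mul, mul_one]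
    congr 2
    apply Finset.filter_congr
    intro S hS
    have hSA := hPiA S hS
    constructor
    · rintro ⟨k, hk⟩
      exact ⟨k, (mem_filter.1 hk).2⟩
    · rintro ⟨k, hk⟩
      exact ⟨k, mem_filter.2 ⟨hSA k, hk⟩⟩
  unfold FreeC
  have hpow : (0 : ℝ) < (A.card : ℝ) ^ m := by positivity
  have key : (∑ x ∈ A, ∑ q ∈ Q, Lam q * min 1 ((mu : ℝ) ^ 2 *
      (((A.filter (fun z => z ≠ x ∧ q ∣ gd x z)).card : ℝ) / A.card))) / 2 * (A.card : ℝ) ^ m ≤
      (A.card : ℝ) ^ m * (15 * mu * A.card * Real.log X) := by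
    calc (∑ x ∈ A, ∑ q ∈ Q, Lam q * min 1 ((mu : ℝ) ^ 2 *
        (((A.filter (fun z => z ≠ x ∧ q ∣ gd x z)).card : ℝ) / A.card))) / 2 * (A.card : ℝ) ^ m
        = ∑ x ∈ A, ∑ q ∈ Q, Lam q * (min 1 ((mu : ℝ) ^ 2 *
        (((A.filter (fun z => z ≠ x ∧ q ∣ gd x z)).card : ℝ) / A.card)) / 2 *
          (A.card : ℝ) ^ m) := by
          rw [Finset.sum_div, Finset.sum_mul]
          refine Finset.sum_congr rfl fun x _ => ?_
          rw [Finset.sum_div, Finset.sum_mul]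
          refine Finset.sum_congr rfl fun q _ => ?_
          ring
      _ ≤ ∑ x ∈ A, ∑ q ∈ Q, Lam q *
          ∑ S ∈ Pi, (if ∃ k, S k ≠ x ∧ q ∣ gd x (S k) then (1 : ℝ) else 0) := by
          refine Finset.sum_le_sum fun x hx => Finset.sum_le_sum fun q hq => ?_
          exact mul_le_mul_of_nonneg_left (hxq x hx q hq) (Lam_nonneg q)
      _ = ∑ S ∈ Pi, ∑ x ∈ A, ∑ q ∈ Q, Lam q *
          (if ∃ k, S k ≠ x ∧ q ∣ gd x (S k) then (1 : ℝ) else 0) := by
          rw [Finset.sum_comm]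
          rw [show (∑ y ∈ Q, ∑ x ∈ A, Lam y * ∑ S ∈ Pi,
            (if ∃ k, S k ≠ x ∧ y ∣ gd x (S k) then (1 : ℝ) else 0)) =
            ∑ y ∈ Q, ∑ x ∈ A, ∑ S ∈ Pi, Lam y *
            (if ∃ k, S k ≠ x ∧ y ∣ gd x (S k) then (1 : ℝ) else 0) from
            Finset.sum_congr rfl fun q _ => Finset.sum_congr rfl fun x _ => Finset.mul_sum _ _ _]
          rw [Finset.sum_comm]
          rw [show (∑ y ∈ A, ∑ x ∈ Q, ∑ S ∈ Pi, Lam x *
            (if ∃ k, S k ≠ y ∧ x ∣ gd y (S k) then (1 : ℝ) else 0)) =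
            ∑ y ∈ A, ∑ S ∈ Pi, ∑ x ∈ Q, Lam x *
            (if ∃ k, S k ≠ y ∧ x ∣ gd y (S k) then (1 : ℝ) else 0) from
            Finset.sum_congr rfl fun q _ => Finset.sum_comm]
          rw [Finset.sum_comm]
      _ ≤ ∑ S ∈ Pi, (15 * mu * A.card * Real.log X) := Finset.sum_le_sum hS1
      _ = _ := by rw [Finset.sum_const, nsmul_eq_mul, hPic]
  have key2 : (∑ x ∈ A, ∑ q ∈ Q, Lam q * min 1 ((mu : ℝ) ^ 2 *
      (((A.filter (fun z => z ≠ x ∧ q ∣ gd x z)).card : ℝ) / A.card))) / 2 ≤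
      15 * mu * A.card * Real.log X := by
    rw [mul_comm ((A.card : ℝ) ^ m)] at key
    exact le_of_mul_le_mul_right key hpow
  have h7 : 0 ≤ mu * A.card * Real.log X := by positivity
  linarith

end

end Pool.Agent.Helper72.GP
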