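import Pool.Agent.Helper72.GP.GoalsB

set_option autoImplicit false

namespace Pool.Agent.Helper72.GP

open Finset Polynomial
open scoped Polynomial.Bivariate Classical

noncomputable section

theorem line : LINE := by
  intro f a b α β hf hαβ h0
  obtain ⟨p, hp⟩ : ∃ p : ℝ[X], p = C a * X + C b := ⟨_, rfl⟩
  have hpe : ∀ x, p.eval x = a * x + b := by
    intro x
    rw [hp]
    simp
  have hev : ∀ x, (f.eval p).eval x = evr f x (p.eval x) := by
    intro x
    unfold evr
    rw [← map_evalRingHom_eval, eval_map]
    have h := Polynomial.eval₂_at_apply (p := f) (evalRingHom x) p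
    simp only [coe_evalRingHom] at h
    exact h.symm
  have hzero : f.eval p = 0 := by
    apply Polynomial.eq_zero_of_infinite_isRoot
    apply Set.Infinite.mono _ (Set.Icc_infinite hαβ)
    intro x hx
    change IsRoot (f.eval p) x
    rw [IsRoot.def, hev, hpe]
    exact h0 x hx
  have hdvd : (X - C p) ∣ f := dvd_iff_isRoot.2 hzero
  obtain ⟨g, hg⟩ := hdvd
  have hnu : ¬ IsUnit (X - C p : ℝ[X][Y]) := not_isUnit_X_sub_C p
  have hgu : IsUnit g := (hf.isUnit_or_isUnit hg).resolve_left hnu
  intro x y hxy
  have h1 : evr f x y = (y - p.eval x) * evr g x y := by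
    unfold evr
    rw [hg, evalEval_mul, evalEval_sub, evalEval_X, evalEval_C]
  have h2 : evr g x y ≠ 0 := by
    have := hgu.map (evalEvalRingHom x y)
    rw [evalEvalRingHom_apply] at this
    exact this.ne_zero
  rw [h1] at hxy
  have h3 := (mul_eq_zero.1 hxy).resolve_right h2
  rw [hpe] at h3
  linarith

end

end Pool.Agent.Helper72.GP
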