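import Pool.Agent.Helper72.GP.GoalsB

set_option autoImplicit false

namespace Pool.Agent.Helper72.GP

open Finset Polynomial
open scoped Polynomial.Bivariate Classical

noncomputable section

/-- translation by `(s, s)` -/
def trl (s : ℤ) : Pt ↪ Pt := ⟨fun p => (p.1 + s, p.2 + s), fun p q h => by
  simp only [Prod.mk.injEq, add_left_inj] at h
  exact Prod.ext h.1 h.2⟩

theorem trl_col (s : ℤ) (x y z : Pt) : Col (trl s x) (trl s y) (trl s z) ↔ Col x y z := by
  unfold Col trl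
  simp only [Function.Embedding.coeFn_mk]
  rw [show y.1 + s - (x.1 + s) = y.1 - x.1 by ring, show z.2 + s - (x.2 + s) = z.2 - x.2 by ring,
    show y.2 + s - (x.2 + s) = y.2 - x.2 by ring, show z.1 + s - (x.1 + s) = z.1 - x.1 by ring]

theorem thin_of_lines {P : Finset Pt} {t : ℕ}
    (h : ∀ a b d : ℝ, (a ≠ 0 ∨ b ≠ 0) → (P.filter (fun p => a * p.1 + b * p.2 = d)).card ≤ t) :
    Thin t P := by
  intro x hx y hy hxy
  refine le_trans (Finset.card_le_card ?_)
    (h ((y.2 : ℝ) - x.2) (-((y.1 : ℝ) - x.1)) (((y.2 : ℝ) - x.2) * x.1 - ((y.1 : ℝ) - x.1) * x.2) ?_)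
  · intro z hz
    rw [mem_filter] at hz ⊢
    refine ⟨hz.1, ?_⟩
    have h1 : ((y.1 : ℝ) - x.1) * ((z.2 : ℝ) - x.2) = ((y.2 : ℝ) - x.2) * ((z.1 : ℝ) - x.1) := by
      have := hz.2
      unfold Col at this
      exact_mod_cast this
    linarith
  · by_contra hcon
    push Not at hcon
    apply hxy
    have h1 : (y.2 : ℝ) = x.2 := by linarith [hcon.1]
    have h2 : (y.1 : ℝ) = x.1 := by linarith [hcon.2]
    exact Prod.ext (by exact_mod_cast h2.symm) (by exact_mod_cast h1.symm)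

theorem lines_of_genPos {S : Finset Pt} (hS : GenPos S) (a b d : ℝ) (hab : a ≠ 0 ∨ b ≠ 0) :
    (S.filter (fun p => a * p.1 + b * p.2 = d)).card ≤ 2 := by
  by_contra hcon
  push Not at hcon
  obtain ⟨x, y, z, hx, hy, hz, hxy, hxz, hyz⟩ := Finset.two_lt_card_iff.1 hcon
  rw [mem_filter] at hx hy hz
  refine hS x hx.1 y hy.1 z hz.1 hxy hyz hxz ?_
  unfold Col
  have e1 : a * ((y.1 : ℝ) - x.1) + b * ((y.2 : ℝ) - x.2) = 0 := by linarith [hx.2, hy.2]
  have e2 : a * ((z.1 : ℝ) - x.1) + b * ((z.2 : ℝ) - x.2) = 0 := by linarith [hx.2, hz.2]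
  have h : ((y.1 : ℝ) - x.1) * ((z.2 : ℝ) - x.2) = ((y.2 : ℝ) - x.2) * ((z.1 : ℝ) - x.1) := by
    rcases hab with ha | hb
    · apply mul_left_cancel₀ ha
      linear_combination ((z.2 : ℝ) - x.2) * e1 - ((y.2 : ℝ) - x.2) * e2
    · apply mul_left_cancel₀ hb
      linear_combination ((y.1 : ℝ) - x.1) * e2 - ((z.1 : ℝ) - x.1) * e1
  exact_mod_cast h

/-- MAIN from ITER -/
theorem main_of (hITER : ITER) : MAIN := by
  intro C
  obtain ⟨k, hk⟩ : ∃ k : ℕ, k = 192 * (C + 1) + 1 := ⟨_, rfl⟩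
  obtain ⟨δ, hδ⟩ : ∃ δ : ℝ, δ = 1 / (100 * 64 ^ k) := ⟨_, rfl⟩
  have hδ0 : 0 < δ := by rw [hδ]; positivity
  have hδ1 : δ ≤ 1 / 100 := by
    rw [hδ]
    apply one_div_le_one_div_of_le (by norm_num)
    have : (1 : ℝ) ≤ 64 ^ k := one_le_pow₀ (by norm_num)
    linarith
  obtain ⟨n4, hn4⟩ := hITER k (C + 1) δ (by omega) hδ0 hδ.le
  -- `n` so large that `n^c ≥ 2`, `n^{1/192} > 2`
  obtain ⟨n5, hn5⟩ : ∃ n5 : ℕ, ∀ n : ℕ, n5 ≤ n → 2 ≤ (n : ℝ) ^ (δ / 200) ∧
      2 < (n : ℝ) ^ ((1 : ℝ) / 192) := by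
    have h1 : Filter.Tendsto (fun n : ℕ => (n : ℝ) ^ (δ / 200)) Filter.atTop Filter.atTop :=
      (tendsto_rpow_atTop (by positivity)).comp tendsto_natCast_atTop_atTop
    have h2 : Filter.Tendsto (fun n : ℕ => (n : ℝ) ^ ((1 : ℝ) / 192)) Filter.atTop Filter.atTop :=
      (tendsto_rpow_atTop (by positivity)).comp tendsto_natCast_atTop_atTop
    obtain ⟨n5, h⟩ := Filter.eventually_atTop.1
      ((h1.eventually_ge_atTop 2).and (h2.eventually_gt_atTop 2))
    exact ⟨n5, h⟩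
  refine ⟨δ / 200, by positivity, max (max n4 n5) 2, ?_⟩
  intro P hP hbox hline
  have hP4 : n4 ≤ P.card := by omega
  have hP5 : n5 ≤ P.card := by omega
  have hP2 : 2 ≤ P.card := by omega
  obtain ⟨h2c, h2k⟩ := hn5 P.card hP5
  set n : ℝ := (P.card : ℝ) with hn
  have hn2 : (2 : ℝ) ≤ n := by rw [hn]; exact_mod_cast hP2
  have hn1 : (1 : ℝ) ≤ n := by linarith
  -- the translation
  set m : ℕ := P.card ^ C with hm
  have hmR : (m : ℝ) = n ^ C := by rw [hm, hn]; push_cast; rfl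
  set Q : Finset Pt := P.map (trl m) with hQ
  have hQc : Q.card = P.card := Finset.card_map _
  have hQbox : Box (2 * m) Q := by
    intro q hq
    rw [hQ, mem_map] at hq
    obtain ⟨p, hp, rfl⟩ := hq
    obtain ⟨h1, h2⟩ := hbox p hp
    rw [← hmR] at h1 h2
    have h1' : |p.1| ≤ (m : ℤ) := by
      have : ((|p.1| : ℤ) : ℝ) ≤ ((m : ℤ) : ℝ) := by push_cast; exact h1
      exact_mod_cast this
    have h2' : |p.2| ≤ (m : ℤ) := by
      have : ((|p.2| : ℤ) : ℝ) ≤ ((m : ℤ) : ℝ) := by push_cast; exact h2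
      exact_mod_cast this
    rw [abs_le] at h1' h2'
    simp only [trl, Function.Embedding.coeFn_mk]
    push_cast
    refine ⟨?_, ?_, ?_, ?_⟩ <;> linarith [h1'.1, h1'.2, h2'.1, h2'.2]
  set t : ℕ := ⌊n ^ (δ / 200)⌋₊ with ht
  have ht2 : 2 ≤ t := Nat.le_floor (by exact_mod_cast h2c)
  have htn : (t : ℝ) ≤ n ^ (δ / 200) := Nat.floor_le (by positivity)
  have hPt : Thin t P := by
    apply thin_of_lines
    intro a b d hab
    exact Nat.le_floor (hline a b d hab)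
  have hQt : Thin t Q := by
    intro x hx y hy hxy
    rw [hQ, mem_map] at hx hy
    obtain ⟨x, hx, rfl⟩ := hx
    obtain ⟨y, hy, rfl⟩ := hy
    have hxy' : x ≠ y := fun h => hxy (by rw [h])
    refine le_trans (le_of_eq ?_) (hPt x hx y hy hxy')
    rw [hQ, Finset.filter_map, Finset.card_map]
    congr 1
    apply Finset.filter_congr
    intro z _
    rw [Function.comp_apply, trl_col]
  have hN1 : ((2 * m : ℕ) : ℝ) ≤ (Q.card : ℝ) ^ (C + 1) := by
    rw [hQc, ← hn]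
    push_cast
    rw [hmR, pow_succ]
    have h3 : 0 < n ^ C := pow_pos (by linarith) C
    calc 2 * n ^ C ≤ n * n ^ C := mul_le_mul_of_nonneg_right hn2 h3.le
      _ = n ^ C * n := by ring
  have hN2 : ((2 * m : ℕ) : ℝ) < (Q.card : ℝ) ^ ((k : ℝ) / 192) := by
    rw [hQc, ← hn]
    push_cast
    rw [hmR, hk]
    push_cast
    have e1 : (192 * ((C : ℝ) + 1) + 1) / 192 = (C : ℝ) + (1 + 1 / 192) := by ring
    rw [e1, Real.rpow_add (by linarith), Real.rpow_natCast, Real.rpow_add (by linarith),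
      Real.rpow_one]
    have h3 : 0 < n ^ C := pow_pos (by linarith) C
    have h4 : 2 < n * n ^ ((1 : ℝ) / 192) := by
      calc (2 : ℝ) < n ^ ((1 : ℝ) / 192) := h2k
        _ = 1 * n ^ ((1 : ℝ) / 192) := by ring
        _ ≤ n * n ^ ((1 : ℝ) / 192) := mul_le_mul_of_nonneg_right hn1 (by linarith)
    calc 2 * n ^ C = n ^ C * 2 := by ring
      _ < n ^ C * (n * n ^ ((1 : ℝ) / 192)) := mul_lt_mul_of_pos_left h4 h3
  obtain ⟨S, hS, hG, hc⟩ := hn4 Q (2 * m) t (by rw [hQc]; exact hP4) hQbox hN1 hN2 hQt ht2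
    (by rw [hQc]; exact htn)
  -- back to `P`
  refine ⟨P.filter (fun p => trl m p ∈ S), filter_subset _ _, ?_, ?_⟩
  · apply lines_of_genPos
    intro x hx y hy z hz hxy hyz hxz hcol
    rw [mem_filter] at hx hy hz
    exact hG _ hx.2 _ hy.2 _ hz.2 ((trl m).injective.ne hxy) ((trl m).injective.ne hyz)
      ((trl m).injective.ne hxz) ((trl_col m x y z).2 hcol)
  · have hSm : (P.filter (fun p => trl m p ∈ S)).map (trl m) = S := by
      ext q
      rw [mem_map]
      constructor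
      · rintro ⟨p, hp, rfl⟩
        exact (mem_filter.1 hp).2
      · intro hq
        have := hS hq
        rw [hQ, mem_map] at this
        obtain ⟨p, hp, rfl⟩ := this
        exact ⟨p, mem_filter.2 ⟨hp, hq⟩, rfl⟩
    have hSc : S.card = (P.filter (fun p => trl m p ∈ S)).card := by
      rw [← Finset.card_map (trl m) (s := P.filter (fun p => trl m p ∈ S)), hSm]
    rw [← hSc]
    refine le_trans ?_ hc
    rw [hQc, ← hn]
    apply Real.rpow_le_rpow_of_exponent_le hn1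
    linarith

end

end Pool.Agent.Helper72.GP
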