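import Pool.Agent.Helper72.GP.AVG

set_option autoImplicit false

namespace Pool.Agent.Helper72.GP

open Finset Polynomial
open scoped Polynomial.Bivariate Classical

noncomputable section

theorem tri_of {x y z : Pt} {p q : ℕ} (hp : 0 < p) (hq : 0 < q)
    (h1 : (q : ℤ) * (y.1 - x.1) = p * (z.1 - y.1)) (h2 : (q : ℤ) * (y.2 - x.2) = p * (z.2 - y.2)) :
    ∃ a b : ℕ, Tri a b x y z := by
  obtain ⟨g, hg⟩ : ∃ g, g = Nat.gcd p q := ⟨_, rfl⟩
  have hg0 : 0 < g := by rw [hg]; exact Nat.gcd_pos_of_pos_left _ hp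
  obtain ⟨a, ha⟩ : g ∣ p := hg ▸ Nat.gcd_dvd_left p q
  obtain ⟨b, hb⟩ : g ∣ q := hg ▸ Nat.gcd_dvd_right p q
  have hgz : (g : ℤ) ≠ 0 := by exact_mod_cast hg0.ne'
  have hcop : Nat.Coprime a b := by
    have := Nat.coprime_div_gcd_div_gcd (m := p) (n := q) (by rw [← hg]; exact hg0)
    rw [← hg, ha, hb, Nat.mul_div_cancel_left _ hg0, Nat.mul_div_cancel_left _ hg0] at this
    exact this
  refine ⟨a, b, ?_, ?_, hcop, ?_, ?_⟩
  · rcases Nat.eq_zero_or_pos a with h | h
    · rw [h] at ha; omega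
    · exact h
  · rcases Nat.eq_zero_or_pos b with h | h
    · rw [h] at hb; omega
    · exact h
  · apply mul_left_cancel₀ hgz
    rw [ha, hb] at h1
    push_cast at h1
    linear_combination -h1
  · apply mul_left_cancel₀ hgz
    rw [ha, hb] at h2
    push_cast at h2
    linear_combination -h2

theorem tri : TRI := by
  have hdvd : ∀ (a b : ℕ) (x y z : Pt), Tri a b x y z → (a + b) ∣ gd x z ∧ Col x y z ∧
      Col x z y ∧ (x ≠ z → x ≠ y ∧ y ≠ z) := by
    intro a b x y z hT
    obtain ⟨ha, hb, hcop, e1, e2⟩ := hT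
    have hab : ((a : ℤ) + b) ≠ 0 := by positivity
    have hcol : (y.1 - x.1) * (z.2 - x.2) = (y.2 - x.2) * (z.1 - x.1) := by
      apply mul_left_cancel₀ hab
      linear_combination (-(z.2 - x.2)) * e1 + (z.1 - x.1) * e2
    refine ⟨?_, hcol, ?_, ?_⟩
    · have hc : IsCoprime ((a : ℤ) + b) (b : ℤ) := by
        have h1 : Nat.Coprime (a + b) b := by simpa using hcop
        exact_mod_cast Nat.isCoprime_iff_coprime.2 h1
      have h1 : ((a : ℤ) + b) ∣ x.1 - z.1 := by
        apply hc.dvd_of_dvd_mul_left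
        exact ⟨y.1 - z.1, by linear_combination e1⟩
      have h2 : ((a : ℤ) + b) ∣ x.2 - z.2 := by
        apply hc.dvd_of_dvd_mul_left
        exact ⟨y.2 - z.2, by linear_combination e2⟩
      have h3 := Int.dvd_coe_gcd h1 h2
      unfold gd
      exact_mod_cast h3
    · unfold Col
      linear_combination -hcol
    · intro hxz
      constructor
      · intro h
        subst h
        apply hxz
        have ha' : (a : ℤ) ≠ 0 := by positivity
        ext
        · apply mul_left_cancel₀ ha'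
          linear_combination -e1
        · apply mul_left_cancel₀ ha'
          linear_combination -e2
      · intro h
        subst h
        apply hxz
        have hb' : (b : ℤ) ≠ 0 := by positivity
        ext
        · apply mul_left_cancel₀ hb'
          linear_combination e1
        · apply mul_left_cancel₀ hb'
          linear_combination e2
  refine ⟨?_, hdvd, ?_⟩
  · intro x y z hxy hyz hxz hcol
    unfold Col at hcol
    -- primitive vector
    have hg0 : Int.gcd (z.1 - x.1) (z.2 - x.2) ≠ 0 := by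
      intro h
      rw [Int.gcd_eq_zero_iff] at h
      exact hxz (Prod.ext (by linarith [h.1]) (by linarith [h.2]))
    have hbez := Int.gcd_eq_gcd_ab (z.1 - x.1) (z.2 - x.2)
    obtain ⟨α, hα⟩ : ∃ α, α = Int.gcdA (z.1 - x.1) (z.2 - x.2) := ⟨_, rfl⟩
    obtain ⟨β, hβ⟩ : ∃ β, β = Int.gcdB (z.1 - x.1) (z.2 - x.2) := ⟨_, rfl⟩
    rw [← hα, ← hβ] at hbez
    obtain ⟨v1, hv1⟩ : (Int.gcd (z.1 - x.1) (z.2 - x.2) : ℤ) ∣ z.1 - x.1 := Int.gcd_dvd_left _ _
    obtain ⟨v2, hv2⟩ : (Int.gcd (z.1 - x.1) (z.2 - x.2) : ℤ) ∣ z.2 - x.2 := Int.gcd_dvd_right _ _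
    obtain ⟨g, hg⟩ : ∃ g : ℕ, g = Int.gcd (z.1 - x.1) (z.2 - x.2) := ⟨_, rfl⟩
    rw [← hg] at hg0 hbez hv1 hv2
    have hgpos : 0 < g := Nat.pos_of_ne_zero hg0
    have hgz : (g : ℤ) ≠ 0 := by exact_mod_cast hg0
    have hαβ : v1 * α + v2 * β = 1 := by
      apply mul_left_cancel₀ hgz
      rw [hv1, hv2] at hbez
      linear_combination -hbez
    obtain ⟨s, hs⟩ : ∃ s : ℤ, s = α * (y.1 - x.1) + β * (y.2 - x.2) := ⟨_, rfl⟩
    have hpar : (y.1 - x.1) * v2 = (y.2 - x.2) * v1 := by
      apply mul_left_cancel₀ hgz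
      rw [hv1, hv2] at hcol
      linear_combination hcol
    have hs1 : y.1 - x.1 = s * v1 := by
      rw [hs]
      linear_combination (-(y.1 - x.1)) * hαβ + β * hpar
    have hs2 : y.2 - x.2 = s * v2 := by
      rw [hs]
      linear_combination (-(y.2 - x.2)) * hαβ - α * hpar
    have hs0 : s ≠ 0 := by
      intro h
      apply hxy
      rw [h, zero_mul] at hs1 hs2
      exact Prod.ext (by linarith) (by linarith)
    have hsg : s ≠ g := by
      intro h
      apply hyz
      rw [h] at hs1 hs2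
      exact Prod.ext (by linarith) (by linarith)
    rcases lt_or_gt_of_ne hs0 with h | h
    · -- `x` in the middle
      obtain ⟨q, hq⟩ : ∃ q : ℕ, (q : ℤ) = -s := ⟨(-s).toNat, Int.toNat_of_nonneg (by omega)⟩
      obtain ⟨a, b, hab⟩ := tri_of (x := z) (y := x) (z := y) (p := g) (q := q) hgpos (by omega)
        (by rw [hq, show x.1 - z.1 = -(z.1 - x.1) by ring, hv1, hs1]; ring)
        (by rw [hq, show x.2 - z.2 = -(z.2 - x.2) by ring, hv2, hs2]; ring)
      exact ⟨a, b, Or.inr (Or.inr hab)⟩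
    · rcases lt_or_gt_of_ne hsg with h' | h'
      · -- `y` in the middle
        obtain ⟨p, hp⟩ : ∃ p : ℕ, (p : ℤ) = s := ⟨s.toNat, Int.toNat_of_nonneg (by omega)⟩
        obtain ⟨q, hq⟩ : ∃ q : ℕ, (q : ℤ) = g - s :=
          ⟨((g : ℤ) - s).toNat, Int.toNat_of_nonneg (by omega)⟩
        obtain ⟨a, b, hab⟩ := tri_of (x := x) (y := y) (z := z) (p := p) (q := q) (by omega)
          (by omega)
          (by rw [hq, hp, show z.1 - y.1 = (z.1 - x.1) - (y.1 - x.1) by ring, hv1, hs1]; ring)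
          (by rw [hq, hp, show z.2 - y.2 = (z.2 - x.2) - (y.2 - x.2) by ring, hv2, hs2]; ring)
        exact ⟨a, b, Or.inl hab⟩
      · -- `z` in the middle
        obtain ⟨p, hp⟩ : ∃ p : ℕ, (p : ℤ) = s - g :=
          ⟨(s - (g : ℤ)).toNat, Int.toNat_of_nonneg (by omega)⟩
        obtain ⟨a, b, hab⟩ := tri_of (x := y) (y := z) (z := x) (p := p) (q := g) (by omega)
          hgpos
          (by rw [hp, show z.1 - y.1 = (z.1 - x.1) - (y.1 - x.1) by ring,
                show x.1 - z.1 = -(z.1 - x.1) by ring, hv1, hs1]; ring)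
          (by rw [hp, show z.2 - y.2 = (z.2 - x.2) - (y.2 - x.2) by ring,
                show x.2 - z.2 = -(z.2 - x.2) by ring, hv2, hs2]; ring)
        exact ⟨a, b, Or.inr (Or.inl hab)⟩
  · intro P t H hThin
    have hfib : ∀ (B : Finset (Pt × Pt × Pt)) (C : Finset (Pt × Pt)), B ⊆ trip P →
        (∀ τ ∈ B, (τ.1, τ.2.2) ∈ C) → B.card ≤ t * C.card := by
      intro B C hB hC
      have h1 : ∀ p ∈ B.image (fun τ => (τ.1, τ.2.2)),
          (B.filter (fun τ => (τ.1, τ.2.2) = p)).card ≤ t := by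
        intro p hp
        rw [mem_image] at hp
        obtain ⟨τ, hτ, rfl⟩ := hp
        obtain ⟨hx, hy, hz, hxz, -⟩ := mem_trip.1 (hB hτ)
        refine le_trans ?_ (hThin τ.1 hx τ.2.2 hz hxz)
        refine Finset.card_le_card_of_injOn (fun σ => σ.2.1) ?_ ?_
        · intro σ hσ
          simp only [coe_filter, Set.mem_setOf_eq, Prod.mk.injEq] at hσ ⊢
          obtain ⟨hσB, h1, h2⟩ := hσ
          obtain ⟨-, hy', -, -, a, b, hT⟩ := mem_trip.1 (hB hσB)
          refine ⟨hy', ?_⟩
          have := (hdvd a b _ _ _ hT).2.2.1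
          rw [h1, h2] at this
          exact this
        · intro σ hσ ρ hρ hσρ
          simp only [coe_filter, Set.mem_setOf_eq, Prod.mk.injEq] at hσ hρ hσρ
          exact Prod.ext (hσ.2.1.trans hρ.2.1.symm)
            (Prod.ext hσρ (hσ.2.2.trans hρ.2.2.symm))
      have h2 := Finset.card_le_mul_card_image (s := B) (f := fun τ => (τ.1, τ.2.2)) t h1
      refine h2.trans (Nat.mul_le_mul_left t (Finset.card_le_card ?_))
      intro p hp
      rw [mem_image] at hp
      obtain ⟨τ, hτ, rfl⟩ := hp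
      exact hC τ hτ
    constructor
    · have := hfib (trip P) (P ×ˢ P) subset_rfl (fun τ hτ => by
        obtain ⟨hx, hy, hz, -⟩ := mem_trip.1 hτ
        exact mem_product.2 ⟨hx, hz⟩)
      rw [card_product] at this
      calc (trip P).card ≤ t * (P.card * P.card) := this
        _ = P.card ^ 2 * t := by ring
    · apply hfib _ _ (filter_subset _ _)
      intro τ hτ
      rw [mem_filter] at hτ
      obtain ⟨hx, hy, hz, hxz, -⟩ := mem_trip.1 hτ.1
      rw [mem_filter, mem_product]
      exact ⟨⟨hx, hz⟩, hxz, hτ.2⟩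

end

end Pool.Agent.Helper72.GP
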