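import Pool.Agent.Helper72.GP.Defs

/-!
# Project GP (MP_c9dfb5_co): the packets

Every `def XX : Prop` is one packet (statement and complete proof in the docstring).  Prove
`theorem xx : Pool.Agent.Helper72.GP.XX` in your own folder.  The whole paper proof is
`/team-store/c9dfb5_paper.md`; the definitions are in `Pool.Agent.Helper72.GP.Defs`.
-/

set_option autoImplicit false

namespace Pool.Agent.Helper72.GP

open Finset Polynomial
open scoped Polynomial.Bivariate Classical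

noncomputable section

/-! ## Part A -/

/-- SAMP. Alteration. `V` a finite set with a set `T` of triples of different elements of `V`, `q ≥ 1`:
there is `S ⊆ V` containing no triple of `T`, `|S| ≥ |V|/q - |T|/q³`.
Proof. Average over the colourings `χ : V → Fin q` (functions on the subtype, or induct): `V₀` = points of
colour `0`; `∑_χ |V₀| = |V| q^{n-1}`, and every triple (three different points) has all its points of
colour 0 for `q^{n-3}` colourings. So for some `χ`: `|V₀| - #(triples inside V₀) ≥ |V|/q - |T|/q³`;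
delete the first point of every triple inside `V₀`. (Alternatively: choose the colours
of the points one after the other so that the conditional expectation does not decrease, i.e. induct on `V`.) -/
def SAMP : Prop := ∀ (α : Type) (V : Finset α) (T : Finset (α × α × α)) (q : ℕ), 1 ≤ q →
  (∀ τ ∈ T, τ.1 ∈ V ∧ τ.2.1 ∈ V ∧ τ.2.2 ∈ V ∧ τ.1 ≠ τ.2.1 ∧ τ.2.1 ≠ τ.2.2 ∧ τ.1 ≠ τ.2.2) →
  ∃ S ⊆ V, (∀ τ ∈ T, ¬ (τ.1 ∈ S ∧ τ.2.1 ∈ S ∧ τ.2.2 ∈ S)) ∧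
    (V.card : ℝ) / q - (T.card : ℝ) / q ^ 3 ≤ S.card

/-- TRI. Collinear triples of `ℤ²`.
(1) three different collinear points can be ordered such that `Tri a b` holds for some `a, b`.
(2) `Tri a b x y z`: `(a+b) ∣ gd x z`, the points are collinear, and `x ≠ z` gives `x ≠ y`, `y ≠ z`.
(3) in a `t`-thin set there are at most `n² t` triples in `trip P`, and at most `t · #{(x,z)}` with `gd x z > H`.
Proof. (1) `y - x = s v`, `z - x = r v` with `v` primitive (divide by the gcd), `0, s, r` different integers; one of the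
three is strictly between the two others; if it is `y`: `0 < s < r` (or reversed), `a = s/k`, `b = (r-s)/k` with
`k = gcd(s, r-s)`. The three cases are symmetric. (2) `b(x-z) = (a+b)(y-z)` and `gcd(a+b,b) = 1`. `x=y` would give
`a z = a x`. (3) `τ ↦ (τ.1, τ.2.2)` maps to pairs of different points and `τ.2.1` is on the line of `x, z`. -/
def TRI : Prop :=
  (∀ x y z : Pt, x ≠ y → y ≠ z → x ≠ z → Col x y z →
    ∃ a b : ℕ, Tri a b x y z ∨ Tri a b y z x ∨ Tri a b z x y) ∧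
  (∀ (a b : ℕ) (x y z : Pt), Tri a b x y z → (a + b) ∣ gd x z ∧ Col x y z ∧ Col x z y ∧
    (x ≠ z → x ≠ y ∧ y ≠ z)) ∧
  (∀ (P : Finset Pt) (t H : ℕ), Thin t P → (trip P).card ≤ P.card ^ 2 * t ∧
    ((trip P).filter (fun τ => H < gd τ.1 τ.2.2)).card ≤
      t * ((P ×ˢ P).filter (fun p => p.1 ≠ p.2 ∧ H < gd p.1 p.2)).card)

/-- FIB. The values of a random affine form at two points which differ mod `R` are independent:
for `R` prime and `v, w`, the number of `ω : O1 R` with `ω(x) = v`, `ω(z) = w` (8 coordinates) is `≤ R⁸`.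
Proof. The set is a product over the coordinates; in one coordinate, if e.g. `x.1 ≠ z.1` mod `R`, the map
`θ ↦ θ.2.1` is injective on `{θ | lin θ x = v, lin θ z = w}` (the difference of the two equations determines `θ.1`,
then `θ.2.2`). `Fintype.card_pi`/`Finset.card_pi` or `Fintype.piFinset`. -/
def FIB : Prop := ∀ (R : ℕ), R.Prime → ∀ (x z : Pt),
  ((x.1 : ZMod R) ≠ z.1 ∨ (x.2 : ZMod R) ≠ z.2) → ∀ v w : Fin 8 → ZMod R,
  Nat.card {ω : O1 R // (∀ i, lin (ω i) x = v i) ∧ (∀ i, lin (ω i) z = w i)} ≤ R ^ 8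

/-- ONE. The number of `ω` for which `x` is selected is exactly `R^16 L^8 M^8 E` (for `L ≤ R`, `E ≤ M`, `R, M ≥ 1`).
Proof. For fixed `θ.1, θ.2.1` the map `θ.2.2 ↦ lin θ x` is a bijection of `ZMod R`; for fixed `U` and linear part the map
`c.1 ↦ Fq c U` is a bijection of `ZMod M`; `#{v : ZMod R | v.val < L} = L`. -/
def ONE : Prop := ∀ (R M L E : ℕ), 0 < R → 0 < M → L ≤ R → E ≤ M → ∀ x : Pt,
  Nat.card {ω : O1 R × O2 M // Sel L E ω x} = R ^ 16 * L ^ 8 * M ^ 8 * E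

/-- W2. Counting the affine parts `c` of the quadratic form. `M` prime, `E ≤ M`.
(1) one vector: `≤ M^8 E`; (2) two vectors, different mod `M` in some coordinate: `≤ M^7 E²`;
(3) three vectors with a nonzero 2x2 minor mod `M`: `≤ M^6 E³`.
Proof. The map `c ↦ (all coordinates of c.2 except i (except i, j), the values Fq c U)` is injective, because the system
for `c.1, c.2 i (, c.2 j)` is linear with determinant `U2_i - U1_i` (resp. the minor). The values have `.val < E`. -/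
def W2 : Prop := ∀ (M E : ℕ), M.Prime → E ≤ M →
  (∀ U : Fin 8 → ℕ, Nat.card {c : O2 M // (Fq c U).val < E} ≤ M ^ 8 * E) ∧
  (∀ U V : Fin 8 → ℕ, (∃ i, (U i : ZMod M) ≠ V i) →
    Nat.card {c : O2 M // (Fq c U).val < E ∧ (Fq c V).val < E} ≤ M ^ 7 * E ^ 2) ∧
  (∀ U1 U2 U3 : Fin 8 → ℕ, (∃ i j, ((U1 i : ZMod M) - U2 i) * ((U3 j : ZMod M) - U2 j) ≠
      ((U1 j : ZMod M) - U2 j) * ((U3 i : ZMod M) - U2 i)) →
    Nat.card {c : O2 M // (Fq c U1).val < E ∧ (Fq c U2).val < E ∧ (Fq c U3).val < E} ≤ M ^ 6 * E ^ 3)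

/-- BOXC. One coordinate of case (I). `a, b` coprime, `m = a+b > H`, `R` prime, `H L ≤ R ≤ 2 H L`, `m ≤ L`. The number of
`(v,w)` in `(ZMod R)²` with `v, w` and `(b v + a w)/m` all having representatives `< L` is at most `12 L³/R`.
Proof. Let `U1, U3, U2 < L` be the representatives, `m (U2) = b U1 + a U3 mod R` (`m` is a unit mod `R` as `0 < m < R`).
`b U1 + a U3 - m U2 = k R` in `ℤ`, `|k| R < m L ≤ m R/H`, `|k| < m/H`: at most `2m/H + 1 ≤ 3m/H` values of `k`. Given `k` and `U1`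
(`L` values), `a U3 = kR - b U1 mod m` puts `U3` in one residue class mod `m` (`gcd(a,m) = 1`): `≤ L/m + 1 ≤ 2L/m` values. Total
`≤ 6 L²/H` and `1/H ≤ 2L/R`. -/
def BOXC : Prop := ∀ (R H L a b : ℕ), R.Prime → 1 ≤ H → H * L ≤ R → R ≤ 2 * (H * L) → 0 < a → 0 < b →
  Nat.Coprime a b → H < a + b → a + b ≤ L → a + b < R →
  Nat.card {p : ZMod R × ZMod R // p.1.val < L ∧ p.2.val < L ∧
    (((a + b : ℕ) : ZMod R)⁻¹ * ((b : ZMod R) * p.1 + (a : ZMod R) * p.2)).val < L} * R ≤ 12 * L ^ 3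

/-- DEPC. Case (II): the number of pairs `(v,w)` of vectors with all representatives `< L`, affinely dependent over `ℤ`, but
`k ≠ 0`, is at most `L^8 (2m+1)^8 (2L)`, `m = a+b`.
Proof. `U1, U3` representatives of `v, w`, `U2` that of `(bv+aw)/m`; `b U1 + a U3 - m U2 = k R`, `|k_i| ≤ m` (as `L ≤ R`), `k ≠ 0`.
With `d = U1 - U3`: `m(U1-U2) = a d + kR`, `m(U3-U2) = -b d + kR`, so `m² ·`(minor `i j` of `U1-U2, U3-U2`)
`= mR (d_i k_j - d_j k_i)` and `Dep` gives `d_i k_j = d_j k_i`. Map `(v,w) ↦ (U1, k, d_{i0})` where `i0 = i0(k)` is a coordinate with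
`k_{i0} ≠ 0` (chosen from `k`): injective, as `d_j = d_{i0} k_j/k_{i0}`. Values: `L^8`, `(2m+1)^8`, `2L`. -/
def DEPC : Prop := ∀ (R L a b : ℕ), R.Prime → L ≤ R → 0 < a → 0 < b → a + b < R →
  Nat.card {p : (Fin 8 → ZMod R) × (Fin 8 → ZMod R) // (∀ i, (p.1 i).val < L) ∧ (∀ i, (p.2 i).val < L) ∧
    (∀ i, (((a + b : ℕ) : ZMod R)⁻¹ * ((b : ZMod R) * p.1 i + (a : ZMod R) * p.2 i)).val < L) ∧
    Dep (fun i => (p.1 i).val)
      (fun i => (((a + b : ℕ) : ZMod R)⁻¹ * ((b : ZMod R) * p.1 i + (a : ZMod R) * p.2 i)).val)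
      (fun i => (p.2 i).val) ∧
    ¬ Kz a b (fun i => (p.1 i).val)
      (fun i => (((a + b : ℕ) : ZMod R)⁻¹ * ((b : ZMod R) * p.1 i + (a : ZMod R) * p.2 i)).val)
      (fun i => (p.2 i).val)} ≤ L ^ 8 * (2 * (a + b) + 1) ^ 8 * (2 * L)

/-- CONV. Convexity (case (III)). `k = 0`, all three values of the quadratic form `< e²` mod `M`:
then `(a+b) ∣ U1_i - U3_i` and `|U1_i - U3_i| < (a+b) e` for all `i`.
Proof. `m = a+b ≥ 2`. `m U2 = b U1 + a U3`: `b d = m (U2 - U3)`, so `m ∣ d_i` (`gcd(m,b) = 1`). Over `ℤ`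
`m (b|U1|² + a|U3|²) - m² |U2|² = ab |d|²`, i.e. `Q := b|U1|²+a|U3|²-m|U2|²` satisfies `m Q = ab|d|²`. Mod `M`:
`Q = b F(U1) + a F(U3) - m F(U2)` because constant and linear part cancel. `0 ≤ Q`, `Q ≤ (m/4)·8L² ≤ 2 H2 L²`
(`4ab ≤ m²`, `|d|² ≤ 8L²`), and `|bF1 + aF3 - mF2| < m e² ≤ 8 H2 L²` for the representatives `F_i < e²`. As `16 H2 L² < M`, equality
holds in `ℤ`: `Q < m e²`, so `|d|² < m² e²/(ab) ≤ 2 m e²` (`ab ≥ m-1 ≥ m/2`), and `d_i² ≤ |d|² < 2 m e² ≤ m² e²`. -/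
def CONV : Prop := ∀ (M L e H2 a b : ℕ) (c : O2 M) (U1 U2 U3 : Fin 8 → ℕ), 16 * (H2 * L ^ 2) < M →
  e ^ 2 ≤ 8 * L ^ 2 → 0 < a → 0 < b → Nat.Coprime a b → a + b ≤ H2 → (∀ i, U1 i < L) → (∀ i, U2 i < L) →
  (∀ i, U3 i < L) → Kz a b U1 U2 U3 → (Fq c U1).val < e ^ 2 → (Fq c U2).val < e ^ 2 → (Fq c U3).val < e ^ 2 →
  ∀ i, ((a + b : ℕ) : ℤ) ∣ (U1 i : ℤ) - U3 i ∧ |(U1 i : ℤ) - U3 i| < (a + b) * e

/-- CNT. Two one-coordinate counts: pairs `(v,w)` in `(ZMod R)²` with representatives `< L` and `m ∣ v - w`, (1) with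
moreover `|v - w| < m e`: at most `L (2e)`; (2) in all: at most `L (L/m + 1)`.
Proof. `L` values of `v`; `w = v + m j`, `|j| < e`: at most `2e - 1` values; (2) one residue class mod `m` in `[0,L)`. -/
def CNT : Prop := ∀ (R L m e : ℕ), 0 < R → 0 < m → 1 ≤ e →
  Nat.card {p : ZMod R × ZMod R // p.1.val < L ∧ p.2.val < L ∧ (m : ℤ) ∣ (p.1.val : ℤ) - p.2.val ∧
    |(p.1.val : ℤ) - p.2.val| < m * e} ≤ L * (2 * e) ∧
  Nat.card {p : ZMod R × ZMod R // p.1.val < L ∧ p.2.val < L ∧ (m : ℤ) ∣ (p.1.val : ℤ) - p.2.val} ≤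
    L * (L / m + 1)

/-- CI. Case (I) of the count for one triple (`Dep` fails), `m = a+b > H`: number of `ω` at most
`R^8 K^8 M^6 E³` where `K R ≤ 12 L³`, written with reals.
Proof (FIB, W2(3), BOXC). `U(y)` is the vector of representatives of `(b v + a w)/m`, `v = ω(x)`, `w = ω(z)` (the relation
`b x + a z = m y` is linear). As `|minor| < 2L² < M`, a nonzero minor over `ℤ` is nonzero mod `M`. Sum over
`(v,w)`: `K^8` pairs, `≤ R^8` values of `ω.1` (FIB), `≤ M^6 E³` values of `ω.2`. -/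
def CI : Prop := ∀ (N H R M L e H2 a b : ℕ) (x y z : Pt), Par N H R M L e H2 → Tri a b x y z → x ≠ z →
  Box N {x, z} → H < a + b →
  (Nat.card {ω : O1 R × O2 M // Sel L (e ^ 2) ω x ∧ Sel L (e ^ 2) ω y ∧ Sel L (e ^ 2) ω z ∧
    ¬ Dep (UU ω.1 x) (UU ω.1 y) (UU ω.1 z)} : ℝ) ≤
    (R : ℝ) ^ 24 * M ^ 9 * (12 ^ 8 * bet R M L e ^ 3)

/-- CII. Case (II): `Dep` and `k ≠ 0`. Number of `ω` at most `|Ω| · 2 (6N)^8/R^7`.
Proof (FIB, DEPC): number of pairs `(v,w)` at most `L^8 (2m+1)^8 2L ≤ R^9 · 2 · (3m)^8`, `m ≤ 2N` since `m ∣ gd x z` and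
`0 < gd x z ≤ N`; `R^8` values of `ω.1` per pair, `M^9` values of `ω.2`. (Needs `N ≥ 1`: `x ≠ z` in the box.) -/
def CII : Prop := ∀ (N H R M L e H2 a b : ℕ) (x y z : Pt), Par N H R M L e H2 → Tri a b x y z → x ≠ z →
  Box N {x, z} →
  (Nat.card {ω : O1 R × O2 M // Sel L (e ^ 2) ω x ∧ Sel L (e ^ 2) ω y ∧ Sel L (e ^ 2) ω z ∧
    Dep (UU ω.1 x) (UU ω.1 y) (UU ω.1 z) ∧ ¬ Kz a b (UU ω.1 x) (UU ω.1 y) (UU ω.1 z)} : ℝ) ≤
    (R : ℝ) ^ 24 * M ^ 9 * (2 * (6 * N) ^ 8 / R ^ 7)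

/-- CIII. Case (III): `k = 0`, `m ≤ H2`. Number of `ω` at most `|Ω| · β (2e/R)^8`.
Proof (FIB, W2(1), CONV, CNT(1)): `(L·2e)^8` pairs `(v,w)`, `R^8` values of `ω.1` per pair, `M^8 e²` values of `ω.2`. -/
def CIII : Prop := ∀ (N H R M L e H2 a b : ℕ) (x y z : Pt), Par N H R M L e H2 → Tri a b x y z → x ≠ z →
  Box N {x, z} → a + b ≤ H2 →
  (Nat.card {ω : O1 R × O2 M // Sel L (e ^ 2) ω x ∧ Sel L (e ^ 2) ω y ∧ Sel L (e ^ 2) ω z ∧
    Kz a b (UU ω.1 x) (UU ω.1 y) (UU ω.1 z)} : ℝ) ≤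
    (R : ℝ) ^ 24 * M ^ 9 * (bet R M L e * ((2 * e : ℝ) / R) ^ 8)

/-- CIV. Case (IV): `k = 0`, `m > H2`. Number of `ω` at most `|Ω| (β² (2/m)^8 + β/R^8)`.
Proof (FIB, W2, CNT(2)): `k = 0` gives `m ∣ U1_i - U3_i`. If `U1 ≠ U3` (they differ mod `M`, because `L < M`):
`(L(L/m+1))^8 ≤ (2L²/m)^8` pairs (`m ≤ L` since `m ≤ 2N < L`), `R^8`, `M^7 e⁴`. If `U1 = U3`: `L^8` pairs, `R^8`, `M^8 e²`. -/
def CIV : Prop := ∀ (N H R M L e H2 a b : ℕ) (x y z : Pt), Par N H R M L e H2 → Tri a b x y z → x ≠ z →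
  Box N {x, z} → H2 < a + b →
  (Nat.card {ω : O1 R × O2 M // Sel L (e ^ 2) ω x ∧ Sel L (e ^ 2) ω y ∧ Sel L (e ^ 2) ω z ∧
    Kz a b (UU ω.1 x) (UU ω.1 y) (UU ω.1 z)} : ℝ) ≤
    (R : ℝ) ^ 24 * M ^ 9 * (bet R M L e ^ 2 * (2 / H2) ^ 8 + bet R M L e / R ^ 8)

/-- KZL. For `m = a+b ≤ H` selected points force `k = 0`; and in general (real form) one of the four cases holds.
Statement: `Par`, `Tri a b x y z`, `a+b ≤ H`, all three selected: `Kz`.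
Proof. `m u(y) = b u(x) + a u(z)` in `ZMod R`; the integer `b U1 + a U3 - m U2` is divisible by `R` and smaller than `m L ≤ R` in
absolute value. -/
def KZL : Prop := ∀ (N H R M L e H2 a b : ℕ) (x y z : Pt) (ω : O1 R × O2 M), Par N H R M L e H2 →
  Tri a b x y z → a + b ≤ H → Sel L (e ^ 2) ω x → Sel L (e ^ 2) ω y → Sel L (e ^ 2) ω z →
  Kz a b (UU ω.1 x) (UU ω.1 y) (UU ω.1 z)

/-- AVG. The selection lemma with parameters. `β = bet`. If `8 t n (2e/R)^8 ≤ 1`, `(2/H2)^8 ≤ β`,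
`n t (2 (6N)^8/R^7 + β/R^8) ≤ β/8` and `4(12^8+1) β² t T ≤ q² n`, then `P` has `β n/(2q)` points in general position.
`T` bounds the number of pairs with `gd > H`.
Proof. Per triple `τ` of `trip P`: number of `ω` with all three selected is at most
`|Ω| (β/(8tn))` [low, `m ≤ H`: KZL, CIII] resp., if `m > H` (then `gd x z ≥ m > H`),
`|Ω| (β/(8tn) + (12^8+1) β³ + 2(6N)^8/R^7 + β/R^8)` [CI, CII, CIII or CIV]. Sum over the triples (TRI(3)) and ONE: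
`∑_ω (|P_ω|/q - |T_ω|/q³) ≥ |Ω| (β n/q - β n/(8q) - (12^8+1) β³ t T/q³ - β n/(8 q)) ≥ |Ω| β n/(2q)`
where `P_ω` = selected points, `T_ω` = triples of `trip P` with all three points selected. Take a good `ω`, SAMP, and TRI(1). -/
def AVG : Prop := ∀ (P : Finset Pt) (N H R M L e H2 t T q : ℕ), Par N H R M L e H2 → Box N P → Thin t P →
  1 ≤ t → 1 ≤ q → 0 < P.card →
  ((P ×ˢ P).filter (fun p => p.1 ≠ p.2 ∧ H < gd p.1 p.2)).card ≤ T →
  8 * (t : ℝ) * P.card * ((2 * e : ℝ) / R) ^ 8 ≤ 1 → (2 / (H2 : ℝ)) ^ 8 ≤ bet R M L e →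
  (P.card : ℝ) * t * (2 * (6 * N) ^ 8 / R ^ 7 + bet R M L e / R ^ 8) ≤ bet R M L e / 8 →
  4 * (12 ^ 8 + 1) * bet R M L e ^ 2 * t * T ≤ (q : ℝ) ^ 2 * P.card →
  HasGP P (bet R M L e * P.card / (2 * q))

/-- PAR. Choice of the parameters. For `n ≥ n1`, `1 ≤ H ≤ n^{1/48}`, `2 ≤ t ≤ n^{1/8}`, `N ≥ 1` there are `R M L e H2` with
`Par` and all the inequalities of AVG, and `n^{-15/32}/(4·10^6) ≤ β ≤ 1`.
Proof. `B` = least natural number with `8 t n ≤ B^8` (so `B ≤ 2 (8tn)^{1/8}`), `H2 = 2⌈n^{1/16}⌉`, `R` a prime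
`≥ (100 n N t H B)^{10}` (`Nat.exists_infinite_primes`), `L = R / H`, `e = R / (2B)`, `M` a prime with
`16 H2 L² < M ≤ 32 H2 L²` (Bertrand, `Nat.exists_prime_lt_and_le_two_mul`). `R/(2H) ≤ L ≤ R/H`, `R/(4B) ≤ e ≤ R/(2B)`,
`e² ≤ R²/(4B²) ≤ 8 L²` as `H² ≤ 8 B²`. `β ≥ (2H)^{-8} (R²/16B²)/(32 H2 L²) ≥ H^{-6}/(2^{17} B² H2) ≥ n^{-15/32}/(4·10^6)
≥ n^{-1/2}`, `(2/H2)^8 ≤ n^{-1/2}`. -/
def PAR : Prop := ∃ n1 : ℕ, ∀ (n N H t : ℕ), n1 ≤ n → 1 ≤ N → 1 ≤ H → (H : ℝ) ≤ (n : ℝ) ^ ((1 : ℝ) / 48) →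
  2 ≤ t → (t : ℝ) ≤ (n : ℝ) ^ ((1 : ℝ) / 8) → ∃ R M L e H2 : ℕ, Par N H R M L e H2 ∧
  8 * (t : ℝ) * n * ((2 * e : ℝ) / R) ^ 8 ≤ 1 ∧ (2 / (H2 : ℝ)) ^ 8 ≤ bet R M L e ∧
  (n : ℝ) * t * (2 * (6 * N) ^ 8 / R ^ 7 + bet R M L e / R ^ 8) ≤ bet R M L e / 8 ∧
  (n : ℝ) ^ (-(15 : ℝ) / 32) / 4000000 ≤ bet R M L e ∧ bet R M L e ≤ 1

/-- LEMA. Lemma A.
Proof (AVG, PAR). `q` = least natural number `≥ 1` with `4(12^8+1) β² t T ≤ q² n`; either `q = 1`: `β n/2`,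
or `q ≤ 2 β (4(12^8+1) t T/n)^{1/2}`: `β n/(2q) ≥ n^{3/2}/(8 (12^8+1)^{1/2} (tT)^{1/2})`. -/
def LEMA : Prop := ∃ n1 : ℕ, ∃ c1 : ℝ, 0 < c1 ∧ ∀ (P : Finset Pt) (N H t T : ℕ), n1 ≤ P.card → 1 ≤ N →
  Box N P → Thin t P → 2 ≤ t → (t : ℝ) ≤ (P.card : ℝ) ^ ((1 : ℝ) / 8) → 1 ≤ H →
  (H : ℝ) ≤ (P.card : ℝ) ^ ((1 : ℝ) / 48) →
  ((P ×ˢ P).filter (fun p => p.1 ≠ p.2 ∧ H < gd p.1 p.2)).card ≤ T →
  HasGP P (c1 * min ((P.card : ℝ) ^ ((17 : ℝ) / 32))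
    ((P.card : ℝ) ^ ((3 : ℝ) / 2) / ((t : ℝ) * T + 1) ^ ((1 : ℝ) / 2)))

end

end Pool.Agent.Helper72.GP
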