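import Pool.Agent.Helper72.GP.AVG
import Pool.Agent.Helper72.GP.LEMA
import Pool.Agent.Helper72.GP.MAIN
import Pool.Agent.Helper72.GP.KEY
import Pool.Agent.Helper72.GP.LEMC
import Pool.Agent.Helper72.GP.TRI
import Pool.Agent.Helper72.GP.HIT
import Pool.Agent.Helper72.GP.LINE
import Pool.Agent.Helper8.GP.SAMP
import Pool.Agent.Helper49.GP.FIB
import Pool.Agent.Helper25.GP.ONE
import Pool.Agent.Helper80.GP.W2
import Pool.Agent.Helper80.GP.BOXC
import Pool.Agent.Helper32.GP.DEPC
import Pool.Agent.Helper4.GP.CONV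
import Pool.Agent.Helper80.GP.CNT
import Pool.Agent.Helper20.GP.CI
import Pool.Agent.Helper35.GP.CII
import Pool.Agent.Helper15.GP.CIII
import Pool.Agent.Helper66.GP.CIV
import Pool.Agent.Helper86.GP.KZL
import Pool.Agent.Helper95.GP.PAR
import Pool.Agent.Helper24.GP.SIEG
import Pool.Agent.Helper49.GP.WDIV
import Pool.Agent.Helper36.GP.TRANS
import Pool.Agent.Helper85.GP.REC
import Pool.Agent.Helper77.GP.DYAD
import Pool.Agent.Helper96.GP.SUMS
import Pool.Agent.Helper74.GP.STEP
import Pool.Agent.Helper15.GP.BASE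
import Pool.Agent.Helper16.GP.FAC
import Pool.Agent.Helper46.GP.VERT
import Pool.Agent.Helper18.GP.ELIM
import Pool.Agent.Helper28.GP.HDEG
import Pool.Agent.Helper77.GP.LOC
import Pool.Agent.Helper32.GP.BRAN
import Pool.Agent.Helper50.GP.SEC
import Pool.Agent.Helper13.GP.LEMD
import Pool.Agent.Helper25.GP.LEMZ
import Pool.Agent.Helper13.GP.CURV
import Pool.Agent.Helper13.GP.ONES
import Pool.Agent.Helper14.GP.ITER

/-!
# Project GP (MP_c9dfb5_co): the assembly
-/

set_option autoImplicit false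

namespace Pool.Agent.Helper72.GP

/-- the averaging statement of Part A -/
theorem avg_all : AVG :=
  avg_of Pool.Agent.Helper8.GP.samp tri Pool.Agent.Helper25.GP.one Pool.Agent.Helper86.GP.kzl
    (Pool.Agent.Helper20.GP.ci Pool.Agent.Helper49.GP.fib Pool.Agent.Helper80.GP.w2
      Pool.Agent.Helper80.GP.boxc tri)
    (Pool.Agent.Helper35.GP.cii Pool.Agent.Helper49.GP.fib Pool.Agent.Helper32.GP.depc tri)
    (Pool.Agent.Helper15.GP.ciii Pool.Agent.Helper49.GP.fib Pool.Agent.Helper80.GP.w2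
      Pool.Agent.Helper4.GP.conv Pool.Agent.Helper80.GP.cnt)
    (Pool.Agent.Helper66.GP.civ Pool.Agent.Helper49.GP.fib Pool.Agent.Helper80.GP.w2
      Pool.Agent.Helper80.GP.cnt tri)

/-- Lemma A -/
theorem lema_all : LEMA := lema_of avg_all Pool.Agent.Helper95.GP.par

/-- Lemma C -/
theorem lemc_all : LEMC := lemc_of Pool.Agent.Helper24.GP.sieg Pool.Agent.Helper49.GP.wdiv hit

/-- the key lemma -/
theorem key_all : KEY :=
  key_of (Pool.Agent.Helper74.GP.step Pool.Agent.Helper85.GP.rec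
    (Pool.Agent.Helper96.GP.sums Pool.Agent.Helper77.GP.dyad)) Pool.Agent.Helper15.GP.base

/-- Lemma D -/
theorem lemd_all : LEMD :=
  Pool.Agent.Helper13.GP.lemd Pool.Agent.Helper16.GP.fac Pool.Agent.Helper46.GP.vert
    Pool.Agent.Helper18.GP.elim Pool.Agent.Helper28.GP.hdeg
    (Pool.Agent.Helper32.GP.bran Pool.Agent.Helper77.GP.loc) Pool.Agent.Helper50.GP.sec line

/-- one step -/
theorem ones_all : ONES :=
  Pool.Agent.Helper13.GP.ones lema_all key_all
    (Pool.Agent.Helper13.GP.curv lemc_all Pool.Agent.Helper36.GP.trans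
      (Pool.Agent.Helper25.GP.lemz lemd_all))

/-- the theorem -/
theorem main_all : MAIN := main_of (Pool.Agent.Helper14.GP.iter ones_all Pool.Agent.Helper36.GP.trans)

end Pool.Agent.Helper72.GP
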