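import Pool.Agent.Helper72.GP.Goals

/-!
# Project GP (MP_c9dfb5_co): the packets of parts C, B, D, E
-/

set_option autoImplicit false

namespace Pool.Agent.Helper72.GP

open Finset Polynomial
open scoped Polynomial.Bivariate Classical

noncomputable section

/-! ## Part C -/

/-- SIEG. Siegel polynomials: for `μ²` points in `[0,X]²` (`X ≥ 2`, `μ ≥ 1`) there is a nonzero integer polynomial of
degrees `< 2μ` vanishing at all of them, with `log |value| ≤ 14 μ log X` wherever it is nonzero on `[0,X]²`.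
Proof. `Int.Matrix.exists_ne_zero_int_vec_norm_le` for the matrix of the monomials `x^i y^j`, `(i,j) ∈ Fin (2μ) × Fin (2μ)`,
entries `≤ X^{4μ-2}`: coefficients `≤ (4μ² X^{4μ-2})^{1/3}`; value `≤ 4μ² · 4μ² X^{4μ-2} · X^{4μ-2} = 16 μ⁴ X^{8μ-4}`;
`log 16 ≤ 4 log X`, `log μ ≤ μ - 1 ≤ (3/2)(μ-1) log X` (`log 2 ≥ 2/3`), total `≤ (4 + 6(μ-1) + 8μ - 4) log X ≤ 14 μ log X`. -/
def SIEG : Prop := ∀ (X mu : ℕ), 2 ≤ X → 1 ≤ mu → ∀ s : Fin (mu ^ 2) → Pt,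
  (∀ k, 0 ≤ (s k).1 ∧ (s k).1 ≤ X ∧ 0 ≤ (s k).2 ∧ (s k).2 ≤ X) →
  ∃ c : Fin (2 * mu) → Fin (2 * mu) → ℤ, c ≠ 0 ∧ (∀ k, evc c (s k) = 0) ∧
    ∀ x : Pt, (0 ≤ x.1 ∧ x.1 ≤ X ∧ 0 ≤ x.2 ∧ x.2 ≤ X) → evc c x ≠ 0 →
      Real.log |(evc c x : ℝ)| ≤ 14 * mu * Real.log X

/-- WDIV. (1) If `c` vanishes at all `s k` and not at `x`, the prime powers (weight `Λ`) dividing some `gd x (s k)`, `s k ≠ x`,
have total weight `≤ log |c(x)|`. (2) In any case, for points in `[0,X]²`, the total weight is `≤ K log X` for `K` points `s k`.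
Proof. (1) `q ∣ gd x (s k)` gives `q ∣ c(x) - c(s k) = c(x)`, so `q ∣ |c(x)| ≠ 0`; `ArithmeticFunction.vonMangoldt_sum`.
(2) `∑_{q ∣ g} Λ(q) = log g ≤ log X` for `g = gd x (s k)`, `1 ≤ g ≤ X`; sum over `k`. (`Λ(0) = 0`.) -/
def WDIV : Prop :=
  (∀ (m K : ℕ) (c : Fin m → Fin m → ℤ) (s : Fin K → Pt) (x : Pt) (Q : Finset ℕ), (∀ k, evc c (s k) = 0) →
    evc c x ≠ 0 →
    ∑ q ∈ Q, Lam q * (if ∃ k, s k ≠ x ∧ q ∣ gd x (s k) then 1 else 0) ≤ Real.log |(evc c x : ℝ)|) ∧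
  (∀ (X K : ℕ) (s : Fin K → Pt) (x : Pt) (Q : Finset ℕ), 1 ≤ X →
    (0 ≤ x.1 ∧ x.1 ≤ X ∧ 0 ≤ x.2 ∧ x.2 ≤ X) →
    (∀ k, 0 ≤ (s k).1 ∧ (s k).1 ≤ X ∧ 0 ≤ (s k).2 ∧ (s k).2 ≤ X) →
    ∑ q ∈ Q, Lam q * (if ∃ k, s k ≠ x ∧ q ∣ gd x (s k) then 1 else 0) ≤ K * Real.log X)

/-- HIT. The proportion of `S ∈ A^m` hitting `B ⊆ A` is at least `min(1, m|B|/|A|)/2`.
Proof. The complement is `(|A|-|B|)^m`; with `r = |B|/|A|`, `(1-r)^m (1 + m r) ≤ 1` (induction, or Bernoulli for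
`1/(1-r) ≥ 1+r`), so the proportion is `≥ m r/(1+m r) ≥ min(1, m r)/2`. -/
def HIT : Prop := ∀ (A B : Finset Pt) (m : ℕ), A.Nonempty → B ⊆ A →
  min 1 ((m : ℝ) * ((B.card : ℝ) / A.card)) / 2 * (A.card : ℝ) ^ m ≤
    (((Fintype.piFinset (fun _ : Fin m => A)).filter (fun S => ∃ k, S k ∈ B)).card : ℝ)

/-- LEMC. Lemma C.
Proof (SIEG, WDIV, HIT). Suppose the first alternative fails. For `S ∈ A^{μ²}` let `c_S` be the Siegel polynomial and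
`W(x,S) = ∑_{q ≤ X} Λ(q) 1[∃ k, s_k ≠ x, q ∣ gd x s_k]`. `W ≤ 14 μ log X` if `c_S(x) ≠ 0`; otherwise `W ≤ μ² log X`, which happens for
at most `|A|/μ` points `x` of `A`. So `∑_{x,S} W ≤ |A|^{1+μ²} · 15 μ log X`. Exchange the sums and use HIT with
`B = {z ∈ A | z ≠ x, q ∣ gd x z}`. -/
def LEMC : Prop := ∀ (A : Finset Pt) (X mu : ℕ), A.Nonempty → Box X A → 2 ≤ X → 1 ≤ mu →
  (∃ c : Fin (2 * mu) → Fin (2 * mu) → ℤ, c ≠ 0 ∧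
    (A.card : ℝ) / mu < ((A.filter (fun p => evc c p = 0)).card : ℝ)) ∨ FreeC A X mu

/-- TRANS. Rescaling of a residue class. `Q = {(y - c)/h}`, `c = (x.1 mod h, x.2 mod h)`.
Proof. `y = c + h y'`, `0 ≤ y' ≤ N/h`; `gd (c + h y') (c + h z') = h · gd y' z'`, `Col` is invariant. The class of `y = c + h y'`
mod `h q` in `P` is the image of `{z' ∈ Q | q ∣ gd y' z'}` (which contains `y'`), so `rr` = the ratio in `FreeC`. -/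
def TRANS : Prop := ∀ (P : Finset Pt) (N h : ℕ) (x : Pt), Box N P → 1 ≤ h → x ∈ P →
  ∃ Q : Finset Pt, Q.card = (cls P h x).card ∧ Box (N / h) Q ∧ (∀ t, Thin t P → Thin t Q) ∧
    (∀ r : ℝ, HasGP Q r → HasGP P r) ∧ (∀ mu : ℕ, FreeC Q N mu → FreeAt P N h x mu)

/-! ## Part B -/

/-- REC. The recursion. `F(A) log Yr ≤ ∑_q Λ(q) ∑_{A' ⊂ A class mod hq} F(A')`, written as a sum over `y ∈ A`.
Proof. For `y, z ∈ A = cls P h x`: `h ∣ gd y z`, and if `gd y z ≥ Y²` then `log Yr ≤ log (Y²/h) ≤ log (g/h) = ∑_{q ∣ g/h} Λ(q)`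
`= ∑_{q ≤ N, hq ∣ g} Λ(q)`. Exchange the sums: for fixed `q` the number of pairs `(y,z)`, `y ≠ z`, `g ≥ Y²`, `hq ∣ g` is
`∑_{y ∈ A} #{z ∈ cls P (hq) y, z ≠ y, g ≥ Y²}`, and on each class `A'` mod `hq` (contained in `A`) this is `F(A')`
`= ∑_{y ∈ A'} F(A')/|A'|`. (`q = 0` has weight `Λ(0) = 0`.) -/
def REC : Prop := ∀ (P : Finset Pt) (N h : ℕ) (x : Pt) (Yr : ℝ), Box N P → 1 ≤ h → x ∈ P → 1 < Yr → (h : ℝ) < Yr →
  (Fh P (Yr ^ 2) h x : ℝ) * Real.log Yr ≤ ∑ y ∈ cls P h x, ∑ q ∈ range (N + 1),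
    Lam q * ((Fh P (Yr ^ 2) (h * q) y : ℝ) / (cls P (h * q) y).card)

/-- DYAD. (1) For `4^{-J} ≤ r ≤ 1`: `r^{3/4} ≤ ∑_{j ≤ J} 2^{-3(j-1)/2} min(1, 4^j r)`. (2) `∑_{j ≤ J} 2^{-3(j-1)/2} 36·2^j ≤ 349`.
Proof. (1) `j` least with `4^j r ≥ 1` (`j ≤ J`); if `j = 0`, `r = 1` and the term is `2^{3/2}`; else `r < 4^{-(j-1)}`,
`r^{3/4} ≤ 2^{-3(j-1)/2}`. (2) geometric series, `36 · 2^{3/2} · ∑ 2^{-j/2} ≤ 36 · 2.8285 · 3.4143`. -/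
def DYAD : Prop :=
  (∀ (J : ℕ) (r : ℝ), ((4 : ℝ) ^ J)⁻¹ ≤ r → r ≤ 1 → r ^ ((3 : ℝ) / 4) ≤
    ∑ j ∈ range (J + 1), (2 : ℝ) ^ (-(3 * ((j : ℝ) - 1)) / 2) * min 1 ((4 : ℝ) ^ j * r)) ∧
  (∀ J : ℕ, ∑ j ∈ range (J + 1), (2 : ℝ) ^ (-(3 * ((j : ℝ) - 1)) / 2) * (36 * (2 : ℝ) ^ j) ≤ 349)

/-- SUMS. Consequences of `FreeAt` for `μ = 2^j`, `j ≤ J`.
Proof. (1) DYAD and exchange of sums (`μ² = 4^j`; `0 ≤ rr ≤ 1` for `y ∈ cls P h x`, because `cls P (hq) y ⊆ cls P h x`, `y` is in it).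
(2) `rr < 4^{-J}`: `rr = 4^{-J} min(1, 4^J rr)`. -/
def SUMS : Prop := ∀ (P : Finset Pt) (N h : ℕ) (x : Pt) (J : ℕ), 1 ≤ N → 1 ≤ h → x ∈ P →
  (∀ j ≤ J, FreeAt P N h x (2 ^ j)) →
  (∑ y ∈ cls P h x, ∑ q ∈ range (N + 1), Lam q *
    (if ((4 : ℝ) ^ J)⁻¹ ≤ rr P h x q y then (rr P h x q y) ^ ((3 : ℝ) / 4) else 0) ≤
      349 * (cls P h x).card * Real.log N) ∧
  (∑ y ∈ cls P h x, ∑ q ∈ range (N + 1), Lam q *
    (if rr P h x q y < ((4 : ℝ) ^ J)⁻¹ then rr P h x q y else 0) ≤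
      36 * ((2 : ℝ) ^ J)⁻¹ * (cls P h x).card * Real.log N)

/-- STEP. One step of the downward induction. See the paper, Part B.
Proof (REC, SUMS). `A = cls P h x`, `s = |A|`, `K = n^{1/4-δ/16} h^{-6δ}`, `RHS = s^{7/4} K`. In REC, for `y ∈ A` and `q ≥ 2`, put
`A' = cls P (hq) y ⊆ A`, `r = rr = (|A'|-1)/s`. If `|A'| = 1` then `F(A') = 0`. If `r < 4^{-J}`: `F(A')/|A'| ≤ |A'| - 1 = r s`. Otherwise
(`|A'| ≥ 2`, `|A'| ≤ 2 r s`) `F(A')/|A'| ≤ |A'|^{3/4} n^{1/4-δ/16} min(hq,Y²)^{-6δ} ≤ |A'|^{3/4} K min(q,Yr)^{-6δ}`, because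
`min(hq,Y²) ≥ h min(q,Yr)`. For `q ≤ W` bound `|A'|^{3/4} ≤ s^{3/4}` and `min(q,Yr) ≥ 1`: these terms sum to at most
`s · s^{3/4} K ∑_{q ≤ W} Λ(q) ≤ RHS (log Yr)/4`. For `q > W`: `|A'|^{3/4} ≤ 2^{3/4} s^{3/4} r^{3/4}`, `2^{3/4} ≤ 1.69`,
`min(q,Yr)^{-6δ} ≤ W^{-6δ}`: at most `1.69 · 349 · W^{-6δ} s^{7/4} K log N ≤ RHS (log Yr)/4`. The small classes: at most
`36 · 2^{-J} s² log N ≤ s² n^{-δ/8} (log Yr)/4 ≤ RHS (log Yr)/4`, since `s^{1/4} ≤ n^{1/4}` and `h^{-6δ} ≥ Yr^{-6δ} = n^{-δ/16}`.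
Total `F(A) log Yr ≤ (3/4) RHS log Yr`. -/
def STEP : Prop := ∀ (P : Finset Pt) (N h : ℕ) (x : Pt) (δ Yr : ℝ) (J W : ℕ), Box N P → 2 ≤ N → 1 ≤ h → x ∈ P →
  0 < δ → δ ≤ 1 / 100 → Yr = (P.card : ℝ) ^ ((1 : ℝ) / 96) → 1 < Yr → (h : ℝ) < Yr → 1 ≤ W → (W : ℝ) ≤ Yr →
  (∀ j ≤ J, FreeAt P N h x (2 ^ j)) →
  (∀ q : ℕ, 2 ≤ q → ∀ y ∈ cls P h x,
    (Fh P (Yr ^ 2) (h * q) y : ℝ) ≤ Rh P.card δ Yr (h * q) (cls P (h * q) y).card) →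
  144 * Real.log N * (P.card : ℝ) ^ (δ / 8) ≤ (2 : ℝ) ^ J * Real.log Yr →
  ∑ q ∈ range (W + 1), Lam q ≤ Real.log Yr / 4 →
  2360 * Real.log N ≤ (W : ℝ) ^ (6 * δ) * Real.log Yr →
  (Fh P (Yr ^ 2) h x : ℝ) ≤ Rh P.card δ Yr h (cls P h x).card

/-- BASE. The two trivial cases of the claim: `h ≥ Yr`, `|A| ≤ n^{1-δ}`; `h < Yr`, `|A| < n^{1-δ/2}`.
Proof. `F(A) ≤ |A|² = |A|^{7/4} |A|^{1/4}`; `min(h,Y²)^{-6δ} ≥ Yr^{-12δ} = n^{-δ/8}`, and `(1-δ)/4 ≤ 1/4 - δ/16 - δ/8`;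
resp. `h^{-6δ} ≥ Yr^{-6δ} = n^{-δ/16}` and `(1-δ/2)/4 = 1/4 - δ/16 - δ/16`. -/
def BASE : Prop := ∀ (P : Finset Pt) (h : ℕ) (x : Pt) (δ Yr : ℝ), x ∈ P → 0 < δ → δ ≤ 1 / 100 → 1 ≤ h →
  Yr = (P.card : ℝ) ^ ((1 : ℝ) / 96) → 1 < Yr →
  (((cls P h x).card : ℝ) ≤ (P.card : ℝ) ^ (1 - δ) →
    (Fh P (Yr ^ 2) h x : ℝ) ≤ Rh P.card δ Yr h (cls P h x).card) ∧
  ((h : ℝ) < Yr → ((cls P h x).card : ℝ) < (P.card : ℝ) ^ (1 - δ / 2) →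
    (Fh P (Yr ^ 2) h x : ℝ) ≤ Rh P.card δ Yr h (cls P h x).card)

/-- KEY. The key lemma.
Proof (STEP, BASE). Choose `W` with `W^{6δ} ≥ 2360 · 96 · C` and `n2` such that `Yr = n^{1/96} ≥ W`, `Yr > 1`,
`∑_{q ≤ W} Λ(q) ≤ (log Yr)/4` for `n ≥ n2`. `log N ≤ C log n = 96 C log Yr`, so all the numerical hypotheses of STEP hold
(`144 · 96 = 13824`). The claim `F ≤ Rh` holds for all `h ≥ 1`, `x ∈ P` by downward induction on `h` (strong induction on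
`⌈Yr⌉ - h`): `h ≥ Yr`: BASE and (B1); `h < Yr`: BASE (2) or STEP. Then `h = 1`: `cls P 1 x = P`, `Rh = n^{7/4} n^{1/4-δ/16}`. -/
def KEY : Prop := ∀ (C : ℕ) (δ : ℝ), 1 ≤ C → 0 < δ → δ ≤ 1 / 100 → ∃ n2 : ℕ, ∀ (P : Finset Pt) (N J : ℕ),
  n2 ≤ P.card → Box N P → 2 ≤ N → (N : ℝ) ≤ (P.card : ℝ) ^ C →
  13824 * (C : ℝ) * (P.card : ℝ) ^ (δ / 8) ≤ (2 : ℝ) ^ J →
  (∀ h : ℕ, (P.card : ℝ) ^ ((1 : ℝ) / 96) ≤ h → ∀ x ∈ P, ((cls P h x).card : ℝ) ≤ (P.card : ℝ) ^ (1 - δ)) →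
  (∀ h : ℕ, 1 ≤ h → (h : ℝ) < (P.card : ℝ) ^ ((1 : ℝ) / 96) → ∀ x ∈ P,
    (P.card : ℝ) ^ (1 - δ / 2) ≤ (cls P h x).card → ∀ j ≤ J, FreeAt P N h x (2 ^ j)) →
  (((P ×ˢ P).filter (fun p => p.1 ≠ p.2 ∧ (P.card : ℝ) ^ ((1 : ℝ) / 48) ≤ (gd p.1 p.2 : ℝ))).card : ℝ) ≤
    (P.card : ℝ) ^ (2 - δ / 16)

/-! ## Part D -/

/-- FAC. Pigeonhole over the irreducible factors.
Proof. `F` is a unit times a product of irreducible factors (`UniqueFactorizationMonoid`, `ℝ[X][Y]`); degrees in `x` (the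
supremum of the degrees of the coefficients, `= natDegree` of `Bivariate.swap`) and in `y` are additive, every irreducible factor has
`deg_x + deg_y ≥ 1`, so there are at most `2d` factors; every point of `A` is a zero of one of them (`ev` of a unit is
not zero). Every factor has degrees `≤ d`. (Helper85.BL.Basic has degree lemmas for `BD`.) -/
def FAC : Prop := ∀ (d : ℕ) (F : ℝ[X][Y]) (A : Finset (ℝ × ℝ)), 1 ≤ d → F ≠ 0 → BDeg d F → A.Nonempty →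
  (∀ p ∈ A, evr F p.1 p.2 = 0) →
  ∃ f : ℝ[X][Y], Irreducible f ∧ BDeg d f ∧ A.card ≤ 2 * d * (A.filter (fun p => evr f p.1 p.2 = 0)).card

/-- VERT. Points over the zeros of a polynomial in `x`: if `r ≠ 0`, `r(p.1) = 0` for all `p ∈ A`, and `A` is `t`-thin, `t ≥ 1`, then
`|A| ≤ t · natDegree r`. Proof. At most `natDegree r` values of `p.1`, at most `t` points on a vertical line. -/
def VERT : Prop := ∀ (r : ℝ[X]) (t : ℕ) (A : Finset (ℝ × ℝ)), r ≠ 0 → 1 ≤ t → ThinR t A →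
  (∀ p ∈ A, r.eval p.1 = 0) → A.card ≤ t * r.natDegree

/-- ELIM. Elimination: `f` irreducible of positive degree in `y`, `f ∤ g`, all coefficients of degree `≤ e`: there is `r ≠ 0` in `ℝ[X]` of
degree `≤ (deg_y f + deg_y g) e` vanishing at the `x`-coordinates of the common zeros.
Proof. The resultant; `Pool.Agent.Helper85.BL.resultant_ne_zero'`, `natDegree_resultant_le`, `eval_resultant`. -/
def ELIM : Prop := ∀ (f g : ℝ[X][Y]) (e : ℕ), Irreducible f → 1 ≤ f.natDegree → ¬ f ∣ g →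
  (∀ j, (f.coeff j).natDegree ≤ e) → (∀ j, (g.coeff j).natDegree ≤ e) →
  ∃ r : ℝ[X], r ≠ 0 ∧ r.natDegree ≤ (f.natDegree + g.natDegree) * e ∧
    ∀ x y, evr f x y = 0 → evr g x y = 0 → r.eval x = 0

/-- HDEG. Degrees of the derivatives; an irreducible `f` with `deg_y f ≥ 1` does not divide `f_y`.
Proof. Coefficientwise; `f_y ≠ 0` in characteristic 0 and has smaller degree in `y`. -/
def HDEG : Prop :=
  (∀ (d : ℕ) (f : ℝ[X][Y]), BDeg d f → BDeg d (dY f) ∧ BDeg d (dX f) ∧ BDeg (3 * d) (hes f)) ∧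
  (∀ f : ℝ[X][Y], Irreducible f → 1 ≤ f.natDegree → ¬ f ∣ dY f)

/-- LOC. Continuity of the real zeros. If `Good f α β`, then near every `x0 ∈ [α,β]` the number of real zeros is constant and the
zero of rank `k` is continuous.
Proof. Let `y_1 < ... < y_N` be the zeros of `f(x0,·)`, all simple. Shrink `η` so that the intervals `[y_i-η,y_i+η]` are
disjoint and `f_y(x0,·)` has no zero on them; `f(x0, y_i-η)`, `f(x0,y_i+η)` have opposite signs. There is `K` such that all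
real zeros of `f(x,·)` are in `[-K,K]` for `x` near `x0` (the leading coefficient is bounded below, the others
above). By compactness (uniform continuity of `f`, `f_y` on `[x0-1,x0+1] × [-K,K]`) for `x` near `x0`: no zero in `[-K,K]` outside the
open intervals, `f_y(x,·) ≠ 0` on the closed ones, opposite signs at the ends: exactly one zero in each.
Ranks are then equal. -/
def LOC : Prop := ∀ (f : ℝ[X][Y]) (α β : ℝ), α ≤ β → Good f α β → ∀ x0 ∈ Set.Icc α β, ∀ η > 0, ∃ ε > 0,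
  ∀ x ∈ Set.Icc α β, |x - x0| < ε →
    (f.map (evalRingHom x)).roots.toFinset.card = (f.map (evalRingHom x0)).roots.toFinset.card ∧
    ∀ y0, evr f x0 y0 = 0 → ∃ y, evr f x y = 0 ∧ |y - y0| < η ∧ rk f x y = rk f x0 y0

/-- BRAN. Branches. If `Good f α β`, every zero `(α, y0)` is on a continuous branch `ψ` over `[α,β]` of constant rank, and a zero over
`[α,β]` of this rank is on the branch.
Proof (LOC). The number of zeros is locally constant on the connected set `[α,β]`, so constant, `> rk f α y0`; so for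
every `x` there is exactly one zero `ψ x` with rank `rk f α y0` (two zeros `y < y'` have `rk y < rk y'`; the ranks of the
`N` zeros are `0..N-1`). `ψ` is continuous by LOC and uniqueness. -/
def BRAN : Prop := ∀ (f : ℝ[X][Y]) (α β y0 : ℝ), α ≤ β → Good f α β → evr f α y0 = 0 →
  ∃ ψ : ℝ → ℝ, ContinuousOn ψ (Set.Icc α β) ∧ ψ α = y0 ∧ (∀ x ∈ Set.Icc α β, evr f x (ψ x) = 0) ∧
    ∀ x ∈ Set.Icc α β, ∀ y, evr f x y = 0 → rk f x y = rk f α y0 → y = ψ x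

/-- SEC. Second derivative along a branch: `ψ` continuous on `[α,β]`, `f(x,ψ x) = 0`, `f_y(x,ψ x) ≠ 0`.
(1) if three points of the graph are collinear, `hes f` vanishes at some point of the graph in between;
(2) if `hes f` vanishes along the graph, `ψ` is affine on `[α,β]`.
Proof. In `(α,β)`: `ψ' = -f_x/f_y`. (`0 = f(x,ψ x) - f(x0,ψ x0) = (x-x0) A + (ψ x - ψ x0) B` with `A, B` polynomials in
`x, x0, ψ x, ψ x0` (divided differences), `B → f_y(x0,ψ x0) ≠ 0`; or the implicit function theorem.) Then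
`ψ'' = -hes f/f_y³` by the chain rule. (1) mean value theorem twice: `ψ'(ξ1) = ψ'(ξ2) =` slope, Rolle: `ψ''(ξ) = 0`.
(2) `ψ'' = 0` on `(α,β)`, `ψ'` constant, `ψ` continuous. -/
def SEC : Prop := ∀ (f : ℝ[X][Y]) (α β : ℝ) (ψ : ℝ → ℝ), α < β → ContinuousOn ψ (Set.Icc α β) →
  (∀ x ∈ Set.Icc α β, evr f x (ψ x) = 0 ∧ evr (dY f) x (ψ x) ≠ 0) →
  (∀ x1 x2 x3 : ℝ, α ≤ x1 → x1 < x2 → x2 < x3 → x3 ≤ β → ColR (x1, ψ x1) (x2, ψ x2) (x3, ψ x3) →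
    ∃ ξ ∈ Set.Icc α β, evr (hes f) ξ (ψ ξ) = 0) ∧
  ((∀ x ∈ Set.Icc α β, evr (hes f) x (ψ x) = 0) → ∃ a b : ℝ, ∀ x ∈ Set.Icc α β, ψ x = a * x + b)

/-- LINE. An irreducible `f` vanishing on a segment of the line `y = a x + b` has all its real zeros on this line.
Proof. `f(x, a x + b)` is a polynomial in `x` with infinitely many zeros, so it is 0: `(Y - C (a X + b)) ∣ f`
(`dvd_iff_isRoot` in `ℝ[X][Y]`), and `f` is irreducible: `f = u (Y - C (aX+b))`, `u` a unit. -/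
def LINE : Prop := ∀ (f : ℝ[X][Y]) (a b α β : ℝ), Irreducible f → α < β →
  (∀ x ∈ Set.Icc α β, evr f x (a * x + b) = 0) → ∀ x y, evr f x y = 0 → y = a * x + b

/-- LEMD. Lemma D.
Proof (FAC, VERT, ELIM, HDEG, BRAN, SEC, LINE). See the paper. `f`, `A0` from FAC, `|A0| ≥ |A|/(2d) ≥ 30 d² t`. `deg_y f ≥ 1` (else
VERT). `r1` for `(f, f_y)`, degree `≤ 2d²`. `f ∤ hes f`: else take a point `p ∈ A0` not above a zero of `r1` and of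
the leading coefficient, and a short interval `[p.1, β]` without such zeros: `Good f p.1 β`; BRAN, SEC (2), LINE: `A0` on a
line, `|A0| ≤ t`. `r2` for `(f, hes f)`, degree `≤ 12 d²`. `Bad` = zeros of the leading coefficient, `r1`, `r2`: at most `15 d²`
real numbers; the set `A1` of the other points of `A0` has `≥ |A0| - 15 d² t ≥ |A0|/2` points (VERT). Colour `p ∈ A1` by
`(#{b ∈ Bad, b < p.1}, rk f p.1 p.2)`: at most `(15 d² + 1) d ≤ 16 d³` colours. Largest class `S`. Three collinear points of `S`: if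
two have the same `p.1` they are equal (same rank) - so the `x`-coordinates are different, `x1 < x2 < x3`, and `[x1,x3]` has no bad point:
`Good f x1 x3`, BRAN, SEC (1) give a common zero of `f` and `hes f` over `[x1,x3]`, so a zero of `r2`. Contradiction. -/
def LEMD : Prop := ∀ (d t : ℕ) (F : ℝ[X][Y]) (A : Finset (ℝ × ℝ)), 1 ≤ d → 2 ≤ t → F ≠ 0 → BDeg d F →
  (∀ p ∈ A, evr F p.1 p.2 = 0) → ThinR t A → 0 < A.card → 60 * d ^ 3 * t ≤ A.card →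
  ∃ S ⊆ A, GenPosR S ∧ A.card ≤ 64 * d ^ 4 * S.card

/-- LEMZ. Lemma D for integer points and integer polynomials given by coefficients.
Proof (LEMD). `F = ∑ c i j X^i Y^j`, `BDeg m F` (indices `< m`), `F ≠ 0`; map the points to `ℝ × ℝ`. -/
def LEMZ : Prop := ∀ (m t : ℕ) (c : Fin m → Fin m → ℤ) (A : Finset Pt), 1 ≤ m → 2 ≤ t → c ≠ 0 →
  (∀ p ∈ A, evc c p = 0) → Thin t A → 0 < A.card → 60 * m ^ 3 * t ≤ A.card →
  HasGP A ((A.card : ℝ) / (64 * m ^ 4))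

/-! ## Part E -/

/-- CURV. The case in which (B2) fails.
Proof (LEMC, TRANS, LEMZ). `Q` from TRANS; if `FreeC Q N 2^j` holds then `FreeAt`, so LEMC gives a polynomial with degrees `< m = 2·2^j`
vanishing on a set `A1 ⊆ Q`, `|A1| > |Q|/2^j ≥ n^{1-δ/2}/2^J ≥ n^{1-5δ/8}/(27648 C)`, `m ≤ 55296 C n^{δ/8}`. `A1` is `t`-thin.
`60 m³ t ≤ |A1|` and `|A1|/(64 m⁴) ≥ n^{3/4}` for large `n` (exponents: `3δ/8 + δ/200 < 1 - 5δ/8`, `1 - 5δ/8 - δ/2 > 3/4`). -/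
def CURV : Prop := ∀ (C : ℕ) (δ : ℝ), 1 ≤ C → 0 < δ → δ ≤ 1 / 100 → ∃ n3 : ℕ, ∀ (P : Finset Pt) (N t J : ℕ),
  n3 ≤ P.card → Box N P → 2 ≤ N → Thin t P → 2 ≤ t → (t : ℝ) ≤ (P.card : ℝ) ^ (δ / 200) →
  (2 : ℝ) ^ J ≤ 27648 * (C : ℝ) * (P.card : ℝ) ^ (δ / 8) →
  ∀ (h : ℕ) (x : Pt) (j : ℕ), 1 ≤ h → x ∈ P → (P.card : ℝ) ^ (1 - δ / 2) ≤ (cls P h x).card → j ≤ J →
  ¬ FreeAt P N h x (2 ^ j) → HasGP P ((P.card : ℝ) ^ ((3 : ℝ) / 4))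

/-- ONES. One step: a large general position subset, or a class mod `h ≥ n^{1/96}` with more than `n^{1-δ}` points.
Proof (LEMA, KEY, CURV). See the paper, Part E. `J` = least natural number with `2^J ≥ 13824 C n^{δ/8}`, so
`2^J ≤ 27648 C n^{δ/8}`; `N ≥ 2` since `n ≤ (N+1)²`. If no such class exists and (B2) fails: CURV (`3/4 ≥ 1/2+δ/40`). Otherwise KEY;
LEMA with `H = ⌊n^{1/48}⌋`, `T = ⌊n^{2-δ/16}⌋`: `n^{3/2}/(t T + 1)^{1/2} ≥ n^{1/2+δ/32} (2t)^{-1/2}`; for large `n` all is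
`≥ n^{1/2+δ/40}` (`δ/32 - δ/400 > δ/40`). -/
def ONES : Prop := ∀ (C : ℕ) (δ : ℝ), 1 ≤ C → 0 < δ → δ ≤ 1 / 100 → ∃ n3 : ℕ, ∀ (P : Finset Pt) (N t : ℕ),
  n3 ≤ P.card → Box N P → (N : ℝ) ≤ (P.card : ℝ) ^ C → Thin t P → 2 ≤ t →
  (t : ℝ) ≤ (P.card : ℝ) ^ (δ / 200) →
  HasGP P ((P.card : ℝ) ^ (1 / 2 + δ / 40)) ∨
  ∃ h : ℕ, (P.card : ℝ) ^ ((1 : ℝ) / 96) ≤ h ∧ ∃ x ∈ P, (P.card : ℝ) ^ (1 - δ) < ((cls P h x).card : ℝ)

/-- ITER. The iteration, by induction on `k`.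
Proof (ONES, TRANS). `k = 0`: `N < 1`, so `n ≤ 1`. `k → k+1`: ONES with `δ`; in the class alternative `Q` from TRANS:
`n' = |Q| > n^{1-δ}`, `Box (N/h) Q`, `N/h < n^{(k+1)/192 - 2/192} ≤ n'^{k/192}` as `k - 1 ≤ (1-δ) k`, `N/h ≤ N ≤ n^C ≤ n'^{2C}`, `Thin t Q`,
`t ≤ n^{δ/200} ≤ n'^{64δ/200}`. Induction hypothesis with `2C`, `64δ`: `HasGP P (n'^{1/2+δ})`, and `(1-δ)(1/2+δ) ≥ 1/2+δ/64`. -/
def ITER : Prop := ∀ (k C : ℕ) (δ : ℝ), 1 ≤ C → 0 < δ → δ ≤ 1 / (100 * 64 ^ k) → ∃ n4 : ℕ,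
  ∀ (P : Finset Pt) (N t : ℕ), n4 ≤ P.card → Box N P → (N : ℝ) ≤ (P.card : ℝ) ^ C →
  (N : ℝ) < (P.card : ℝ) ^ ((k : ℝ) / 192) → Thin t P → 2 ≤ t → (t : ℝ) ≤ (P.card : ℝ) ^ (δ / 200) →
  HasGP P ((P.card : ℝ) ^ (1 / 2 + δ / 64))

/-- MAIN. The theorem.
Proof (ITER). `k = 192 (C+1) + 1`, `δ = 1/(100·64^k)`, `c = δ/200`, `t = max 2 ⌊n^c⌋ = ⌊n^c⌋`; translate by `(⌊n^C⌋, ⌊n^C⌋)`: `Box N P'` with
`N = 2⌊n^C⌋ ≤ n^{C+1} < n^{k/192}`. The real lines through two different points give `Thin`; `GenPos` gives that every real line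
has at most two points. -/
def MAIN : Prop := ∀ C : ℕ, ∃ c : ℝ, 0 < c ∧ ∃ n0 : ℕ, ∀ P : Finset (ℤ × ℤ), n0 ≤ P.card →
  (∀ p ∈ P, |(p.1 : ℝ)| ≤ (P.card : ℝ) ^ C ∧ |(p.2 : ℝ)| ≤ (P.card : ℝ) ^ C) →
  (∀ a b d : ℝ, (a ≠ 0 ∨ b ≠ 0) →
    ((P.filter (fun p => a * p.1 + b * p.2 = d)).card : ℝ) ≤ (P.card : ℝ) ^ c) →
  ∃ S ⊆ P, (∀ a b d : ℝ, (a ≠ 0 ∨ b ≠ 0) → (S.filter (fun p => a * p.1 + b * p.2 = d)).card ≤ 2) ∧
    (P.card : ℝ) ^ (1 / 2 + c) ≤ (S.card : ℝ)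

end

end Pool.Agent.Helper72.GP
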