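import Pool.Agent.Helper72.GP.FAM

/-!
# Real point sets: only the collinear triples of large height count
-/

set_option autoImplicit false

namespace Pool.Agent.Helper72.GP

open Finset

noncomputable section

/-- `v` divides the segment `u w` in the ratio `a : b` for positive integers `a, b` with
`a + b ≤ K` -/
def LowDiv (K : ℝ) {k : ℕ} (u v w : Fin k → ℝ) : Prop :=
  ∃ a b : ℕ, 0 < a ∧ 0 < b ∧ (a : ℝ) + b ≤ K ∧ ∀ i, (b : ℝ) * u i + a * w i = ((a : ℝ) + b) * v i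

/-- the ordered triples of different points of `P` on a line, none of whose labels divides the
segment between the two other labels in a ratio `a : b` with `a + b ≤ |P|^{1/48}` -/
def HighTriples {k : ℕ} (P : Finset (ℝ × ℝ)) (lab : ℝ × ℝ → Fin k → ℝ) :
    Set ((ℝ × ℝ) × (ℝ × ℝ) × (ℝ × ℝ)) :=
  {τ | τ.1 ∈ P ∧ τ.2.1 ∈ P ∧ τ.2.2 ∈ P ∧ τ.1 ≠ τ.2.1 ∧ τ.2.1 ≠ τ.2.2 ∧ τ.1 ≠ τ.2.2 ∧
    (τ.2.1.1 - τ.1.1) * (τ.2.2.2 - τ.1.2) = (τ.2.1.2 - τ.1.2) * (τ.2.2.1 - τ.1.1) ∧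
    ¬ LowDiv ((P.card : ℝ) ^ ((1 : ℝ) / 48)) (lab τ.1) (lab τ.2.1) (lab τ.2.2) ∧
    ¬ LowDiv ((P.card : ℝ) ^ ((1 : ℝ) / 48)) (lab τ.2.1) (lab τ.2.2) (lab τ.1) ∧
    ¬ LowDiv ((P.card : ℝ) ^ ((1 : ℝ) / 48)) (lab τ.2.2) (lab τ.1) (lab τ.2.1)}

open scoped Classical

/-- integer labels -/
theorem exists_int_label {k : ℕ} (P : Finset (ℝ × ℝ)) (lab : ℝ × ℝ → Fin k → ℝ)
    (hlab : Set.InjOn lab (P : Set (ℝ × ℝ))) :
    ∃ (N : ℕ) (m : ℝ × ℝ → ℤ), (∀ x ∈ P, 0 ≤ m x ∧ m x ≤ N) ∧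
      Set.InjOn m (P : Set (ℝ × ℝ)) ∧
      ∀ x ∈ P, ∀ y ∈ P, ∀ z ∈ P, ∀ a b : ℕ,
        (∀ i, (b : ℝ) * lab x i + a * lab z i = ((a : ℝ) + b) * lab y i) →
        (b : ℤ) * m x + a * m z = (a + b) * m y := by
  -- a linear functional which separates the labels
  obtain ⟨f, hf⟩ := Module.exists_dual_forall_apply_ne_zero (K := ℚ) (M := Fin k → ℝ)
    (ι := {p : P × P // p.1 ≠ p.2}) (fun p => lab p.1.1 - lab p.1.2) (by
      intro p h
      apply p.2
      exact Subtype.ext (hlab p.1.1.2 p.1.2.2 (sub_eq_zero.1 h)))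
  obtain ⟨D, hD⟩ : ∃ D : ℕ, D = ∏ x ∈ P, (f (lab x)).den := ⟨_, rfl⟩
  have hD0 : D ≠ 0 := by
    rw [hD]
    exact Finset.prod_ne_zero_iff.2 fun x _ => (f (lab x)).den_ne_zero
  have hint : ∀ x, ∃ m : ℤ, x ∈ P → (m : ℚ) = D * f (lab x) := by
    intro x
    by_cases hx : x ∈ P
    · obtain ⟨c, hc⟩ : (f (lab x)).den ∣ D := by
        rw [hD]
        exact Finset.dvd_prod_of_mem (fun x => (f (lab x)).den) hx
      refine ⟨c * (f (lab x)).num, fun _ => ?_⟩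
      rw [hc]
      push_cast
      have h1 : ((f (lab x)).den : ℚ) * f (lab x) = (f (lab x)).num := Rat.den_mul_eq_num _
      linear_combination -(c : ℚ) * h1
    · exact ⟨0, fun h => absurd h hx⟩
  choose m0 hm0 using hint
  obtain ⟨N0, hN0⟩ : ∃ N0 : ℕ, ∀ x ∈ P, |m0 x| ≤ N0 := by
    refine ⟨∑ x ∈ P, (m0 x).natAbs, fun x hx => ?_⟩
    rw [Int.abs_eq_natAbs]
    exact_mod_cast Finset.single_le_sum (f := fun x => (m0 x).natAbs) (fun _ _ => Nat.zero_le _) hx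
  have hDQ : (D : ℚ) ≠ 0 := by exact_mod_cast hD0
  refine ⟨2 * N0, fun x => m0 x + N0, ?_, ?_, ?_⟩
  · intro x hx
    have := abs_le.1 (hN0 x hx)
    push_cast
    constructor <;> linarith [this.1, this.2]
  · intro x hx y hy hxy
    by_contra hne
    have h1 := hf ⟨(⟨x, hx⟩, ⟨y, hy⟩), fun h => hne (congrArg Subtype.val h)⟩
    simp only [map_sub] at h1
    apply h1
    have h2 : m0 x = m0 y := by
      simp only at hxy
      linarith
    have h3 : (D : ℚ) * f (lab x) = D * f (lab y) := by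
      rw [← hm0 x hx, ← hm0 y hy, h2]
    have h4 := mul_left_cancel₀ hDQ h3
    linarith
  · intro x hx y hy z hz a b hab
    have h1 : (b : ℚ) • lab x + (a : ℚ) • lab z = ((a : ℚ) + b) • lab y := by
      funext i
      have := hab i
      simp only [Pi.add_apply, Pi.smul_apply, Rat.smul_def]
      push_cast
      exact this
    have h2 := congrArg f h1
    rw [map_add, map_smul, map_smul, map_smul, smul_eq_mul, smul_eq_mul, smul_eq_mul] at h2
    have h3 : (b : ℚ) * m0 x + a * m0 z = ((a : ℚ) + b) * m0 y := by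
      rw [hm0 x hx, hm0 y hy, hm0 z hz]
      linear_combination (D : ℚ) * h2
    have h4 : (b : ℤ) * m0 x + a * m0 z = ((a : ℤ) + b) * m0 y := by exact_mod_cast h3
    linear_combination h4

/-- the point of `ℤ²` with first coordinate `m x` -/
def emb (m : ℝ × ℝ → ℤ) (x : ℝ × ℝ) : Pt := (m x, 0)

theorem tri_emb {m : ℝ × ℝ → ℤ} {x y z : ℝ × ℝ} {a b : ℕ} (ha : 0 < a) (hb : 0 < b)
    (h : (b : ℤ) * m x + a * m z = (a + b) * m y) :
    ∃ a' b' : ℕ, a' + b' ≤ a + b ∧ Tri a' b' (emb m x) (emb m y) (emb m z) := by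
  obtain ⟨g, hg⟩ : ∃ g, g = Nat.gcd a b := ⟨_, rfl⟩
  have hg0 : 0 < g := by rw [hg]; exact Nat.gcd_pos_of_pos_left _ ha
  obtain ⟨a', ha'⟩ : g ∣ a := hg ▸ Nat.gcd_dvd_left a b
  obtain ⟨b', hb'⟩ : g ∣ b := hg ▸ Nat.gcd_dvd_right a b
  have hgz : (g : ℤ) ≠ 0 := by exact_mod_cast hg0.ne'
  have hcop : Nat.Coprime a' b' := by
    have := Nat.coprime_div_gcd_div_gcd (m := a) (n := b) (by rw [← hg]; exact hg0)
    rw [← hg, ha', hb', Nat.mul_div_cancel_left _ hg0, Nat.mul_div_cancel_left _ hg0] at this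
    exact this
  refine ⟨a', b', ?_, ?_, ?_, hcop, ?_, ?_⟩
  · rw [ha', hb', ← Nat.mul_add]
    exact Nat.le_mul_of_pos_left _ hg0
  · rcases Nat.eq_zero_or_pos a' with h | h
    · rw [h] at ha'; omega
    · exact h
  · rcases Nat.eq_zero_or_pos b' with h | h
    · rw [h] at hb'; omega
    · exact h
  · simp only [emb]
    apply mul_left_cancel₀ hgz
    rw [ha', hb'] at h
    push_cast at h
    linear_combination h
  · simp [emb]

theorem real_main : ∃ c : ℝ, 0 < c ∧ ∃ n₀ : ℕ, ∀ (k t : ℕ) (P : Finset (ℝ × ℝ))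
    (lab : ℝ × ℝ → Fin k → ℝ), n₀ ≤ P.card → (t : ℝ) ≤ (P.card : ℝ) ^ ((1 : ℝ) / 8) →
    Set.InjOn lab (P : Set (ℝ × ℝ)) →
    (∀ a b d : ℝ, (a ≠ 0 ∨ b ≠ 0) → (P.filter (fun p => a * p.1 + b * p.2 = d)).card ≤ t) →
    ∃ S ⊆ P, (∀ a b d : ℝ, (a ≠ 0 ∨ b ≠ 0) →
      (S.filter (fun p => a * p.1 + b * p.2 = d)).card ≤ 2) ∧
      c * min ((P.card : ℝ) ^ ((17 : ℝ) / 32))
        ((P.card : ℝ) ^ ((3 : ℝ) / 2) / (((HighTriples P lab).ncard : ℝ) + 1) ^ ((1 : ℝ) / 2)) ≤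
        (S.card : ℝ) := by
  obtain ⟨n1, c1, hc1, hn1⟩ := lemf
  refine ⟨c1, hc1, max n1 2, ?_⟩
  intro k t P lab hP ht hlab hline
  obtain ⟨N, m, hmN, hminj, hmrel⟩ := exists_int_label P lab hlab
  have hP1 : n1 ≤ P.card := by omega
  have hP2 : 2 ≤ P.card := by omega
  -- collinearity
  have hthin : ∀ x ∈ P, ∀ z ∈ P, x ≠ z →
      (P.filter (fun y => (y.1 - x.1) * (z.2 - x.2) = (y.2 - x.2) * (z.1 - x.1))).card ≤ t := by
    intro x hx z hz hxz
    refine le_trans (le_of_eq ?_)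
      (hline (z.2 - x.2) (-(z.1 - x.1)) ((z.2 - x.2) * x.1 - (z.1 - x.1) * x.2) ?_)
    · congr 1
      apply Finset.filter_congr
      intro y _
      constructor
      · intro h
        linear_combination h
      · intro h
        linear_combination h
    · by_contra hcon
      push Not at hcon
      apply hxz
      exact Prod.ext (by linarith [hcon.2]) (by linarith [hcon.1])
  have ht2 : 2 ≤ t := by
    obtain ⟨x, hx, z, hz, hxz⟩ := Finset.one_lt_card.1 (show 1 < P.card by omega)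
    refine le_trans ?_ (hthin x hx z hz hxz)
    have h1 : ({x, z} : Finset (ℝ × ℝ)).card = 2 := Finset.card_pair hxz
    rw [← h1]
    apply Finset.card_le_card
    intro y hy
    rw [mem_insert, mem_singleton] at hy
    rw [mem_filter]
    rcases hy with rfl | rfl
    · exact ⟨hx, by ring⟩
    · exact ⟨hz, by ring⟩
  -- the integer set
  have hemb : Set.InjOn (emb m) (P : Set (ℝ × ℝ)) := by
    intro x hx y hy h
    simp only [emb, Prod.mk.injEq, and_true] at h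
    exact hminj hx hy h
  obtain ⟨V, hV⟩ : ∃ V : Finset Pt, V = P.image (emb m) := ⟨_, rfl⟩
  have hVc : V.card = P.card := by rw [hV]; exact Finset.card_image_of_injOn hemb
  have hVbox : Box (N + 1) V := by
    intro v hv
    rw [hV, mem_image] at hv
    obtain ⟨x, hx, rfl⟩ := hv
    have h := hmN x hx
    refine ⟨h.1, ?_, le_rfl, ?_⟩
    · change m x ≤ ((N + 1 : ℕ) : ℤ)
      push_cast
      linarith [h.2]
    · change (0 : ℤ) ≤ ((N + 1 : ℕ) : ℤ)
      positivity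
  obtain ⟨B, hBdef⟩ : ∃ B : Finset ((ℝ × ℝ) × (ℝ × ℝ) × (ℝ × ℝ)),
      B = (P ×ˢ P ×ˢ P).filter (fun τ => τ.1 ≠ τ.2.1 ∧ τ.2.1 ≠ τ.2.2 ∧ τ.1 ≠ τ.2.2 ∧
        (τ.2.1.1 - τ.1.1) * (τ.2.2.2 - τ.1.2) = (τ.2.1.2 - τ.1.2) * (τ.2.2.1 - τ.1.1) ∧
        ∃ a b, Tri a b (emb m τ.1) (emb m τ.2.1) (emb m τ.2.2)) := ⟨_, rfl⟩
  have memB : ∀ τ, τ ∈ B ↔ (τ.1 ∈ P ∧ τ.2.1 ∈ P ∧ τ.2.2 ∈ P) ∧
      τ.1 ≠ τ.2.1 ∧ τ.2.1 ≠ τ.2.2 ∧ τ.1 ≠ τ.2.2 ∧
        (τ.2.1.1 - τ.1.1) * (τ.2.2.2 - τ.1.2) = (τ.2.1.2 - τ.1.2) * (τ.2.2.1 - τ.1.1) ∧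
        ∃ a b, Tri a b (emb m τ.1) (emb m τ.2.1) (emb m τ.2.2) := by
    intro τ
    rw [hBdef, mem_filter, mem_product, mem_product]
  obtain ⟨F, hF⟩ : ∃ F : ((ℝ × ℝ) × (ℝ × ℝ) × (ℝ × ℝ)) → Pt × Pt × Pt,
      F = fun τ => (emb m τ.1, emb m τ.2.1, emb m τ.2.2) := ⟨_, rfl⟩
  obtain ⟨TT, hTT⟩ : ∃ TT : Finset (Pt × Pt × Pt), TT = B.image F := ⟨_, rfl⟩
  have hFam : Fam V TT := by
    intro τ hτ
    rw [hTT, mem_image] at hτ
    obtain ⟨σ, hσ, rfl⟩ := hτ
    obtain ⟨⟨h1, h2, h3⟩, h4, h5, h6, h7, h8⟩ := (memB σ).1 hσ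
    rw [hF]
    simp only
    refine ⟨?_, ?_, ?_, ?_, h8⟩
    · rw [hV]; exact mem_image_of_mem _ h1
    · rw [hV]; exact mem_image_of_mem _ h2
    · rw [hV]; exact mem_image_of_mem _ h3
    · exact fun h => h6 (hemb h1 h3 h)
  have hTTcard : TT.card ≤ V.card ^ 2 * t := by
    rw [hVc, hTT]
    refine Finset.card_image_le.trans ?_
    have h1 : ∀ p ∈ B.image (fun τ => (τ.1, τ.2.2)),
        (B.filter (fun τ => (τ.1, τ.2.2) = p)).card ≤ t := by
      intro p hp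
      rw [mem_image] at hp
      obtain ⟨τ, hτ, rfl⟩ := hp
      obtain ⟨⟨hx, hy, hz⟩, -, -, hxz, -⟩ := (memB τ).1 hτ
      refine le_trans ?_ (hthin τ.1 hx τ.2.2 hz hxz)
      refine Finset.card_le_card_of_injOn (fun σ => σ.2.1) ?_ ?_
      · intro σ hσ
        rw [mem_coe, mem_filter] at hσ
        obtain ⟨hσB, h1⟩ := hσ
        obtain ⟨⟨-, hy', -⟩, -, -, -, hcol, -⟩ := (memB σ).1 hσB
        have e1 : σ.1 = τ.1 := (Prod.ext_iff.1 h1).1
        have e2 : σ.2.2 = τ.2.2 := (Prod.ext_iff.1 h1).2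
        rw [e1, e2] at hcol
        rw [mem_coe, mem_filter]
        exact ⟨hy', hcol⟩
      · intro σ hσ ρ hρ hσρ
        rw [mem_coe, mem_filter] at hσ hρ
        have e1 : σ.1 = ρ.1 := (Prod.ext_iff.1 hσ.2).1.trans (Prod.ext_iff.1 hρ.2).1.symm
        have e2 : σ.2.2 = ρ.2.2 := (Prod.ext_iff.1 hσ.2).2.trans (Prod.ext_iff.1 hρ.2).2.symm
        exact Prod.ext e1 (Prod.ext hσρ e2)
    have h2 := Finset.card_le_mul_card_image (s := B) (f := fun τ => (τ.1, τ.2.2)) t h1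
    have h3 : (B.image (fun τ => (τ.1, τ.2.2))).card ≤ P.card * P.card := by
      rw [← card_product]
      apply Finset.card_le_card
      intro p hp
      rw [mem_image] at hp
      obtain ⟨τ, hτ, rfl⟩ := hp
      obtain ⟨⟨hx, hy, hz⟩, -⟩ := (memB τ).1 hτ
      exact mem_product.2 ⟨hx, hz⟩
    calc B.card ≤ t * (B.image (fun τ => (τ.1, τ.2.2))).card := h2
      _ ≤ t * (P.card * P.card) := Nat.mul_le_mul_left _ h3
      _ = P.card ^ 2 * t := by ring
  obtain ⟨H, hH⟩ : ∃ H : ℕ, H = ⌊(P.card : ℝ) ^ ((1 : ℝ) / 48)⌋₊ := ⟨_, rfl⟩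
  have hPR : (1 : ℝ) ≤ (P.card : ℝ) := by exact_mod_cast (by omega : 1 ≤ P.card)
  have hH1 : 1 ≤ H := by
    rw [hH]
    apply Nat.le_floor
    push_cast
    exact Real.one_le_rpow hPR (by norm_num)
  have hHle : (H : ℝ) ≤ (P.card : ℝ) ^ ((1 : ℝ) / 48) := by
    rw [hH]
    exact Nat.floor_le (by positivity)
  have hHigh : (TT.filter (fun τ => Hig H τ)).card ≤ (HighTriples P lab).ncard := by
    have hfin : (HighTriples P lab).Finite := by
      apply Set.Finite.subset (P ×ˢ P ×ˢ P).finite_toSet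
      intro τ hτ
      rw [mem_coe, mem_product, mem_product]
      exact ⟨hτ.1, hτ.2.1, hτ.2.2.1⟩
    have hsub : TT.filter (fun τ => Hig H τ) ⊆
        (B.filter (fun σ => Hig H (F σ))).image F := by
      intro τ hτ
      rw [mem_filter, hTT, mem_image] at hτ
      obtain ⟨⟨σ, hσ, rfl⟩, hh⟩ := hτ
      exact mem_image_of_mem _ (mem_filter.2 ⟨hσ, hh⟩)
    refine (Finset.card_le_card hsub).trans (Finset.card_image_le.trans ?_)
    rw [← Set.ncard_coe_finset]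
    apply Set.ncard_le_ncard _ hfin
    rintro ⟨x, y, z⟩ hσ
    rw [mem_coe, mem_filter] at hσ
    obtain ⟨hσB, hh⟩ := hσ
    obtain ⟨⟨hx, hy, hz⟩, h4, h5, h6, h7, a0, b0, hT0⟩ := (memB _).1 hσB
    rw [hF] at hh
    simp only at hx hy hz h4 h5 h6 h7 hT0
    have hmxz : m x - m z ≠ 0 := by
      intro h
      exact h6 (hminj hx hz (by linarith))
    have hT1 : (b0 : ℤ) * m x + a0 * m z = (a0 + b0) * m y := hT0.2.2.2.1
    have ha0 : (0 : ℤ) < a0 := by exact_mod_cast hT0.1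
    have hb0 : (0 : ℤ) < b0 := by exact_mod_cast hT0.2.1
    refine ⟨hx, hy, hz, h4, h5, h6, h7, ?_, ?_, ?_⟩
    · rintro ⟨a, b, ha, hb, hab, hrel⟩
      have h8 := hmrel x hx y hy z hz a b hrel
      obtain ⟨a', b', hle, hT'⟩ := tri_emb ha hb h8
      have h9 : H < a' + b' := hh a' b' hT'
      have h10 : a + b ≤ H := by
        rw [hH]
        apply Nat.le_floor
        push_cast
        exact hab
      omega
    · rintro ⟨a, b, ha, hb, hab, hrel⟩
      have h8 := hmrel y hy z hz x hx a b hrel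
      have ha' : (0 : ℤ) < a := by exact_mod_cast ha
      have hb' : (0 : ℤ) < b := by exact_mod_cast hb
      -- `b y + a x = (a+b) z`, `b0 x + a0 z = (a0+b0) y`
      have h11 : ((a : ℤ) * a0 + a * b0 + b * b0) * (m x - m z) = 0 := by
        linear_combination ((a0 : ℤ) + b0) * h8 + (b : ℤ) * hT1
      have h12 : ((a : ℤ) * a0 + a * b0 + b * b0) ≠ 0 := by positivity
      exact hmxz ((mul_eq_zero.1 h11).resolve_left h12)
    · rintro ⟨a, b, ha, hb, hab, hrel⟩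
      have h8 := hmrel z hz x hx y hy a b hrel
      have ha' : (0 : ℤ) < a := by exact_mod_cast ha
      have hb' : (0 : ℤ) < b := by exact_mod_cast hb
      -- `b z + a y = (a+b) x`
      have h11 : ((a : ℤ) * a0 + b * a0 + b * b0) * (m x - m z) = 0 := by
        linear_combination (-((a0 : ℤ) + b0)) * h8 - (a : ℤ) * hT1
      have h12 : ((a : ℤ) * a0 + b * a0 + b * b0) ≠ 0 := by positivity
      exact hmxz ((mul_eq_zero.1 h11).resolve_left h12)
  obtain ⟨S', hS'V, hS'T, hS'c⟩ := hn1 V TT (N + 1) H t (HighTriples P lab).ncard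
    (by rw [hVc]; exact hP1) (by omega) hVbox hFam hTTcard hHigh ht2 (by rw [hVc]; exact ht) hH1
    (by rw [hVc]; exact hHle)
  rw [hVc] at hS'c
  refine ⟨P.filter (fun x => emb m x ∈ S'), filter_subset _ _, ?_, ?_⟩
  · intro a b d hab
    by_contra hcon
    push Not at hcon
    obtain ⟨x, y, z, hx, hy, hz, hxy, hxz, hyz⟩ := Finset.two_lt_card_iff.1 hcon
    rw [mem_filter, mem_filter] at hx hy hz
    obtain ⟨⟨hxP, hxS⟩, hxl⟩ := hx
    obtain ⟨⟨hyP, hyS⟩, hyl⟩ := hy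
    obtain ⟨⟨hzP, hzS⟩, hzl⟩ := hz
    have hcol : ∀ u v w : ℝ × ℝ, a * u.1 + b * u.2 = d → a * v.1 + b * v.2 = d →
        a * w.1 + b * w.2 = d → (v.1 - u.1) * (w.2 - u.2) = (v.2 - u.2) * (w.1 - u.1) := by
      intro u v w hu hv hw
      have e1 : a * (v.1 - u.1) + b * (v.2 - u.2) = 0 := by linarith
      have e2 : a * (w.1 - u.1) + b * (w.2 - u.2) = 0 := by linarith
      rcases hab with ha | hb
      · apply mul_left_cancel₀ ha
        linear_combination (w.2 - u.2) * e1 - (v.2 - u.2) * e2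
      · apply mul_left_cancel₀ hb
        linear_combination (v.1 - u.1) * e2 - (w.1 - u.1) * e1
    have hne : ∀ u v : ℝ × ℝ, u ∈ P → v ∈ P → u ≠ v → emb m u ≠ emb m v :=
      fun u v hu hv huv h => huv (hemb hu hv h)
    have hC : Col (emb m x) (emb m y) (emb m z) := by
      unfold Col emb
      simp
    have key : ∀ u v w : ℝ × ℝ, u ∈ P → v ∈ P → w ∈ P → emb m u ∈ S' → emb m v ∈ S' →
        emb m w ∈ S' → u ≠ v → v ≠ w → u ≠ w → a * u.1 + b * u.2 = d →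
        a * v.1 + b * v.2 = d → a * w.1 + b * w.2 = d →
        (∃ a b, Tri a b (emb m u) (emb m v) (emb m w)) → False := by
      intro u v w hu hv hw hu' hv' hw' huv hvw huw h1 h2 h3 hT
      refine hS'T (emb m u, emb m v, emb m w) ?_ ⟨hu', hv', hw'⟩
      rw [hTT, mem_image]
      refine ⟨(u, v, w), ?_, by rw [hF]⟩
      rw [memB]
      exact ⟨⟨hu, hv, hw⟩, huv, hvw, huw, hcol u v w h1 h2 h3, hT⟩
    obtain ⟨a', b', h | h | h⟩ := tri.1 _ _ _ (hne x y hxP hyP hxy) (hne y z hyP hzP hyz)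
      (hne x z hxP hzP hxz) hC
    · exact key x y z hxP hyP hzP hxS hyS hzS hxy hyz hxz hxl hyl hzl ⟨a', b', h⟩
    · exact key y z x hyP hzP hxP hyS hzS hxS hyz hxz.symm hxy.symm hyl hzl hxl ⟨a', b', h⟩
    · exact key z x y hzP hxP hyP hzS hxS hyS hxz.symm hxy hyz.symm hzl hxl hyl ⟨a', b', h⟩
  · have hSc : S'.card = (P.filter (fun x => emb m x ∈ S')).card := by
      have h1 : (P.filter (fun x => emb m x ∈ S')).image (emb m) = S' := by
        ext v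
        rw [mem_image]
        constructor
        · rintro ⟨x, hx, rfl⟩
          exact (mem_filter.1 hx).2
        · intro hv
          have := hS'V hv
          rw [hV, mem_image] at this
          obtain ⟨x, hx, rfl⟩ := this
          exact ⟨x, mem_filter.2 ⟨hx, hv⟩, rfl⟩
      have h2 : ((P.filter (fun x => emb m x ∈ S')).image (emb m)).card =
          (P.filter (fun x => emb m x ∈ S')).card :=
        Finset.card_image_of_injOn (hemb.mono (by
          intro x hx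
          exact (mem_filter.1 hx).1))
      rw [← h2, h1]
    rw [← hSc]
    exact hS'c

end

end Pool.Agent.Helper72.GP
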